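import Pool.Agent.V8H63.W3.Lev

set_option autoImplicit false

/-!
# Polynomial rings over algebraic extensions of finite fields
-/

namespace Pool.Agent.V8H63.W3

open Polynomial

variable {k : Type} [Field k]

theorem poly_quot {n : ℕ} {P q e : k[X]} (hP : P.Monic) (hn : P.natDegree = n) (h : e = q * P)
    (he : e.degree < (n : WithBot ℕ) + n) : q.degree < n := by
  have hPd : P.degree = n := by rw [← hn, degree_eq_natDegree hP.ne_zero]
  by_contra hc
  push Not at hc
  have h1 : e.degree = q.degree + n := by rw [h, degree_mul, hPd]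
  rw [h1] at he
  have h2 : (n : WithBot ℕ) + n ≤ q.degree + n := by gcongr
  exact absurd he (not_lt.2 h2)

theorem deg_mul_lt {n : ℕ} {x y : k[X]} (hx : x.degree < n) (hy : y.degree ≤ n) :
    (x * y).degree < (n : WithBot ℕ) + n := by
  rw [degree_mul]
  by_cases hx0 : x = 0
  · rw [hx0, degree_zero, WithBot.bot_add]
    exact WithBot.bot_lt_coe _
  by_cases hy0 : y = 0
  · rw [hy0, degree_zero, WithBot.add_bot]
    exact WithBot.bot_lt_coe _
  rw [degree_eq_natDegree hx0] at hx ⊢
  rw [degree_eq_natDegree hy0] at hy ⊢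
  norm_cast at hx hy ⊢
  omega

theorem lt_add {n : ℕ} {x : WithBot ℕ} (hx : x < n) : x < (n : WithBot ℕ) + n := by
  refine lt_of_lt_of_le hx ?_
  norm_cast
  omega

/-- elements of the residue fields lie in finite subfields -/
theorem poly_fin (h : ∀ x : k, ∃ K : Subfield k, Finite K ∧ x ∈ K) (P : k[X])
    [hP : Fact (Irreducible P)] (r : AdjoinRoot P) :
    ∃ K : Subfield (AdjoinRoot P), Finite K ∧ r ∈ K := by
  obtain ⟨K, hK, -⟩ := h 1
  obtain ⟨p, hc⟩ := CharP.exists K
  have := Fintype.ofFinite K
  obtain ⟨r0, hp', -⟩ := FiniteField.card K p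
  have hp : Fact p.Prime := ⟨hp'⟩
  have hck : CharP k p := charP_of_injective_ringHom K.subtype.injective p
  let _ : Algebra (ZMod p) k := ZMod.algebra k p
  have halg : Algebra.IsAlgebraic (ZMod p) k := by
    refine ⟨fun x => ?_⟩
    obtain ⟨K, hK, hx⟩ := h x
    have hcK : CharP K p := RingHom.charP K.subtype K.subtype.injective p
    let _ : Algebra (ZMod p) K := ZMod.algebra K p
    have h1 : IsAlgebraic (ZMod p) (⟨x, hx⟩ : K) := by
      have : Module.Finite (ZMod p) K := Module.Finite.of_finite
      exact Algebra.IsAlgebraic.isAlgebraic _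
    let φ : K →ₐ[ZMod p] k := { K.subtype with
      commutes' := fun r => by
        change K.subtype (algebraMap (ZMod p) K r) = algebraMap (ZMod p) k r
        have : (K.subtype.comp (algebraMap (ZMod p) K)) = algebraMap (ZMod p) k :=
          Subsingleton.elim _ _
        exact congrArg (fun f => f r) this }
    exact h1.algHom φ
  have hfin : Module.Finite k (AdjoinRoot P) := (AdjoinRoot.powerBasis hP.out.ne_zero).finite
  have halg2 : Algebra.IsAlgebraic (ZMod p) (AdjoinRoot P) :=
    Algebra.IsAlgebraic.trans (ZMod p) k (AdjoinRoot P)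
  have hint : IsIntegral (ZMod p) r := (halg2.isAlgebraic r).isIntegral
  have hfd := IntermediateField.adjoin.finiteDimensional hint
  refine ⟨(IntermediateField.adjoin (ZMod p) {r}).toSubfield, ?_,
    IntermediateField.mem_adjoin_simple_self _ r⟩
  exact Module.finite_of_finite (ZMod p)

/-- polynomials over an algebraic extension of a finite field, `S n` the polynomials of degree
less than `n` -/
noncomputable def levPoly (h : ∀ x : k, ∃ K : Subfield k, Finite K ∧ x ∈ K) : Lev k[X] where
  S n := {x | x.degree < n}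
  Pr n := {P | P.Monic ∧ Irreducible P ∧ P.natDegree = n}
  base := by
    intro x hx
    rw [← degree_eq_bot]
    exact Nat.WithBot.lt_zero_iff.1 hx
  mono := by
    intro n x hx
    refine lt_of_lt_of_le (show x.degree < n from hx) ?_
    norm_cast
    omega
  ex := by
    intro a
    refine ⟨a.natDegree + 1, Or.inl ?_⟩
    refine lt_of_le_of_lt a.degree_le_natDegree ?_
    norm_cast
    omega
  zero := by
    intro n P _
    change degree (0 : k[X]) < n
    rw [degree_zero]
    exact WithBot.bot_lt_coe _
  one := by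
    rintro n P ⟨h1, h2, rfl⟩
    change degree (1 : k[X]) < _
    rw [degree_one]
    exact_mod_cast h2.natDegree_pos
  sub := by
    intro n x y hx hy
    left
    exact lt_of_le_of_lt (degree_sub_le x y) (max_lt hx hy)
  pred := by
    rintro n P x ⟨h1, h2, rfl⟩ hx _
    refine lt_of_le_of_lt (degree_sub_le x 1) (max_lt hx ?_)
    rw [degree_one]
    exact_mod_cast h2.natDegree_pos
  inj := by
    rintro n P x ⟨h1, h2, rfl⟩ hx hd
    by_contra h0
    have := degree_le_of_dvd hd h0
    rw [degree_eq_natDegree h1.ne_zero] at this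
    exact absurd (show x.degree < _ from hx) (not_lt.2 this)
  prime := by
    rintro n P ⟨h1, h2, rfl⟩
    exact h2.prime
  mem := by
    rintro n P ⟨h1, h2, rfl⟩
    change P.degree < _
    rw [degree_eq_natDegree h1.ne_zero]
    norm_cast
    omega
  quot := by
    rintro n P x y z w q ⟨h1, h2, h3⟩ hx hy hz hw e
    left
    exact poly_quot h1 h3 e (lt_of_le_of_lt (degree_sub_le _ _)
      (max_lt (deg_mul_lt hx (le_of_lt hy)) (deg_mul_lt hz (le_of_lt hw))))
  quot' := by
    rintro n P x y z q ⟨h1, h2, h3⟩ hx hy hz e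
    left
    exact poly_quot h1 h3 e (lt_of_le_of_lt (degree_add_le _ _)
      (max_lt (deg_mul_lt hx (le_of_lt hy)) (lt_add hz)))
  diff := by
    rintro n P P' ⟨h1, h2, h3⟩ ⟨h1', h2', h3'⟩
    left
    change (P' - P).degree < n
    have hd : P'.degree = P.degree := by
      rw [degree_eq_natDegree h1.ne_zero, degree_eq_natDegree h1'.ne_zero, h3, h3']
    have := degree_sub_lt_left hd h1'.ne_zero (by rw [h1.leadingCoeff, h1'.leadingCoeff])
    rwa [degree_eq_natDegree h1'.ne_zero, h3'] at this
  quot2 := by
    rintro n P P' x y z q ⟨h1, h2, h3⟩ ⟨h1', h2', h3'⟩ - hx hy hz e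
    left
    have hP' : P'.degree ≤ n := by rw [degree_eq_natDegree h1'.ne_zero, h3']
    refine poly_quot h1 h3 e (lt_of_le_of_lt (degree_sub_le _ _)
      (max_lt ?_ (deg_mul_lt hy (le_of_lt hz))))
    rw [mul_comm]
    exact deg_mul_lt hx hP'
  fac := by
    intro n x hx hx0
    by_cases h1 : x.degree < n
    · exact Or.inl h1
    right
    have hxn : x.natDegree = n := by
      have h2 : x.degree < ((n + 1 : ℕ) : WithBot ℕ) := hx
      rw [degree_eq_natDegree hx0] at h1 h2
      norm_cast at h1 h2
      omega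
    by_cases hu : IsUnit x
    · exact Or.inr (Or.inr hu)
    by_cases hi : Irreducible x
    · right; left
      have hlc : x.leadingCoeff ≠ 0 := leadingCoeff_ne_zero.2 hx0
      refine ⟨C x.leadingCoeff, ?_, C x.leadingCoeff⁻¹ * x, ⟨?_, ?_, ?_⟩, ?_⟩
      · change (C x.leadingCoeff).degree < n
        rw [degree_C hlc, ← hxn]
        exact_mod_cast hi.natDegree_pos
      · rw [mul_comm]
        exact monic_mul_leadingCoeff_inv hx0
      · have : IsUnit (C x.leadingCoeff⁻¹) := isUnit_C.2 (isUnit_iff_ne_zero.2 (inv_ne_zero hlc))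
        exact (irreducible_isUnit_mul this).2 hi
      · rw [natDegree_C_mul (inv_ne_zero hlc), hxn]
      · rw [← mul_assoc, ← C_mul, mul_inv_cancel₀ hlc, C_1, one_mul]
    · left
      rw [irreducible_iff] at hi
      push Not at hi
      obtain ⟨y, z, hyz, hy, hz⟩ := hi hu
      have hy0 : y ≠ 0 := by rintro rfl; rw [zero_mul] at hyz; exact hx0 hyz
      have hz0 : z ≠ 0 := by rintro rfl; rw [mul_zero] at hyz; exact hx0 hyz
      have hdeg : y.natDegree + z.natDegree = n := by rw [← natDegree_mul hy0 hz0, ← hyz, hxn]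
      have hpos : ∀ w : k[X], w ≠ 0 → ¬ IsUnit w → 0 < w.natDegree := by
        intro w hw hwu
        rw [Nat.pos_iff_ne_zero]
        intro h0
        apply hwu
        rw [eq_C_of_natDegree_eq_zero h0] at hw ⊢
        exact isUnit_C.2 (isUnit_iff_ne_zero.2 (fun e => hw (by rw [e, C_0])))
      have h3 := hpos y hy0 hy
      have h4 := hpos z hz0 hz
      refine ⟨y, ?_, z, ?_, hyz⟩
      · change y.degree < n
        rw [degree_eq_natDegree hy0]
        norm_cast
        omega
      · change z.degree < n
        rw [degree_eq_natDegree hz0]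
        norm_cast
        omega
  res := by
    rintro n P ⟨h1, h2, h3⟩
    have hf : Fact (Irreducible P) := ⟨h2⟩
    refine ⟨AdjoinRoot P, inferInstance, AdjoinRoot.mk P, ?_, fun a => AdjoinRoot.mk_eq_zero,
      poly_fin h P⟩
    intro r
    obtain ⟨q, rfl⟩ := AdjoinRoot.mk_surjective r
    refine ⟨q %ₘ P, ?_, ?_⟩
    · change (q %ₘ P).degree < n
      have := degree_modByMonic_lt q h1
      rwa [degree_eq_natDegree h1.ne_zero, h3] at this
    · rw [← sub_eq_zero, ← map_sub, AdjoinRoot.mk_eq_zero]
      exact ⟨-(q /ₘ P), by rw [modByMonic_eq_sub_mul_div]; ring⟩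

end Pool.Agent.V8H63.W3
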