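import Pool.Agent.V8H63.W3.Lev

set_option autoImplicit false

/-!
# The integers
-/

namespace Pool.Agent.V8H63.W3

/-- `|k| < p` -/
theorem int_quot {n k e : ℤ} (hn : 0 < n) (h : e = k * n) (h1 : e < n * n) (h2 : -(n * n) < e) :
    (0 ≤ k ∧ k < n) ∨ (0 ≤ -k ∧ -k < n) := by
  have h3 : k < n := by
    by_contra hc
    push Not at hc
    nlinarith
  have h4 : -n < k := by
    by_contra hc
    push Not at hc
    nlinarith
  rcases le_total 0 k with h | h
  · exact Or.inl ⟨h, h3⟩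
  · exact Or.inr ⟨by omega, by omega⟩

/-- the integers, with `S n = {0, …, n - 1}` -/
def levZ : Lev ℤ where
  S n := {x | 0 ≤ x ∧ x < n}
  Pr n := {x | x = n ∧ n.Prime}
  base := by
    rintro x ⟨h1, h2⟩
    push_cast at h2
    omega
  mono := by
    rintro n x ⟨h1, h2⟩
    refine ⟨h1, ?_⟩
    push_cast
    omega
  ex := by
    intro a
    refine ⟨a.natAbs + 1, ?_⟩
    rcases le_total 0 a with h | h
    · left
      refine ⟨h, ?_⟩
      push_cast
      rw [abs_of_nonneg h]
      omega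
    · right
      refine ⟨by omega, ?_⟩
      push_cast
      rw [abs_of_nonpos h]
      omega
  zero := by
    rintro n P ⟨h1, h2⟩
    exact ⟨le_rfl, by exact_mod_cast h2.pos⟩
  one := by
    rintro n P ⟨h1, h2⟩
    exact ⟨zero_le_one, by exact_mod_cast h2.one_lt⟩
  sub := by
    rintro n x y ⟨h1, h2⟩ ⟨h3, h4⟩
    rcases le_total y x with h | h
    · left
      exact ⟨by omega, by omega⟩
    · right
      exact ⟨by omega, by omega⟩
  pred := by
    rintro n P x - ⟨h1, h2⟩ hx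
    exact ⟨by omega, by omega⟩
  inj := by
    rintro n P x ⟨rfl, hp⟩ ⟨h1, h2⟩ h
    exact Int.eq_zero_of_dvd_of_nonneg_of_lt h1 h2 h
  prime := by
    rintro n P ⟨rfl, hp⟩
    exact Nat.prime_iff_prime_int.1 hp
  mem := by
    rintro n P ⟨rfl, hp⟩
    refine ⟨by positivity, ?_⟩
    push_cast
    omega
  quot := by
    rintro n P x y z w k ⟨rfl, hp⟩ ⟨hx, hx'⟩ ⟨hy, hy'⟩ ⟨hz, hz'⟩ ⟨hw, hw'⟩ h
    have hn : (0 : ℤ) < n := by exact_mod_cast hp.pos
    exact int_quot hn h (by nlinarith) (by nlinarith)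
  quot' := by
    rintro n P x y z k ⟨rfl, hp⟩ ⟨hx, hx'⟩ ⟨hy, hy'⟩ ⟨hz, hz'⟩ h
    have hn : (0 : ℤ) < n := by exact_mod_cast hp.pos
    have h1 : x * y ≤ (n - 1) * (n - 1) := by
      apply mul_le_mul (by omega) (by omega) hy (by omega)
    exact int_quot hn h (by nlinarith) (by nlinarith)
  diff := by
    rintro n P P' ⟨rfl, hp⟩ ⟨rfl, -⟩
    left
    rw [sub_self]
    exact ⟨le_rfl, by exact_mod_cast hp.pos⟩
  quot2 := by
    rintro n P P' x y z k ⟨rfl, hp⟩ ⟨rfl, -⟩ h
    exact absurd rfl h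
  fac := by
    rintro n x ⟨h1, h2⟩ hx
    by_cases h3 : x < n
    · exact Or.inl ⟨h1, h3⟩
    right
    push_cast at h2
    have h4 : x = n := by omega
    subst h4
    by_cases hn1 : n = 1
    · right; right
      rw [hn1]
      simp
    have hn0 : n ≠ 0 := by
      rintro rfl
      exact hx rfl
    have hn2 : 2 ≤ n := by omega
    by_cases hp : n.Prime
    · right; left
      exact ⟨1, ⟨by norm_num, by exact_mod_cast hp.one_lt⟩, n, ⟨rfl, hp⟩, by rw [one_mul]⟩
    · left
      obtain ⟨m, ⟨l, hl⟩, hm2, hmn⟩ := Nat.exists_dvd_of_not_prime2 hn2 hp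
      have hl0 : l ≠ 0 := by
        rintro rfl
        omega
      have hln : l < n := by
        rw [hl]
        nlinarith [Nat.pos_of_ne_zero hl0]
      exact ⟨m, ⟨by positivity, by exact_mod_cast hmn⟩, l, ⟨by positivity, by exact_mod_cast hln⟩,
        by rw [hl]; push_cast; ring⟩
  res := by
    rintro n P ⟨rfl, hp⟩
    have : Fact n.Prime := ⟨hp⟩
    refine ⟨ZMod n, inferInstance, Int.castRingHom (ZMod n), ?_, ?_, ?_⟩
    · intro r
      refine ⟨(r.val : ℤ), ⟨by positivity, by exact_mod_cast ZMod.val_lt r⟩, ?_⟩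
      simp
    · intro a
      rw [eq_intCast, ZMod.intCast_zmod_eq_zero_iff_dvd]
    · intro r
      exact ⟨⊤, inferInstance, Subfield.mem_top r⟩

end Pool.Agent.V8H63.W3
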