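import Pool.Agent.V8H63.W3.PartB

set_option autoImplicit false
set_option linter.unusedSectionVars false

/-!
# Trilinear forms which vanish on the trilogarithm symbols
-/

namespace Pool.Agent.V8H63.W3

variable {A : Type} [CommRing A] [IsDomain A] {M : Type} [AddCommGroup M] [Module ℚ M]
  (L : Lev A) (c : Lg A M) (T : M →ₗ[ℚ] M →ₗ[ℚ] M →ₗ[ℚ] ℚ)

/-- `T` vanishes on the symbols -/
def Rel : Prop := ∀ a b e : A, a ≠ 0 → b ≠ 0 → e ≠ 0 → a + b = e →
  T (c.c a - c.c e) (c.c a - c.c e) (c.c b - c.c e) = 0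

/-- the symmetries -/
structure Sym : Prop where
  s : ∀ x y z, T x y z = T y x z
  c : ∀ x y z, T x y z + T y z x + T z x y = 0

theorem Sym.two {T : M →ₗ[ℚ] M →ₗ[ℚ] M →ₗ[ℚ] ℚ} (h : Sym T) (x y : M) :
    T x x y = -2 * T x y x := by
  have h1 := h.c x x y
  have h2 := h.s y x x
  linarith

theorem Sym.three {T : M →ₗ[ℚ] M →ₗ[ℚ] M →ₗ[ℚ] ℚ} (h : Sym T) (x : M) : T x x x = 0 := by
  have h1 := h.c x x x
  linarith

/-- `T = 0` on the span of a set -/
theorem span_zero (X : Set M) (h : ∀ x ∈ X, ∀ y ∈ X, ∀ z ∈ X, T x y z = 0) :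
    ∀ x ∈ Submodule.span ℚ X, ∀ y ∈ Submodule.span ℚ X, ∀ z ∈ Submodule.span ℚ X,
      T x y z = 0 := by
  have h1 : ∀ x ∈ X, ∀ y ∈ X, ∀ z ∈ Submodule.span ℚ X, T x y z = 0 := by
    intro x hx y hy z hz
    induction hz using Submodule.span_induction with
    | mem z hz => exact h x hx y hy z hz
    | zero => exact map_zero _
    | add a b _ _ ha hb => rw [map_add, ha, hb, add_zero]
    | smul q a _ ha => rw [map_smul, ha, smul_zero]
  have h2 : ∀ x ∈ X, ∀ y ∈ Submodule.span ℚ X, ∀ z ∈ Submodule.span ℚ X, T x y z = 0 := by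
    intro x hx y hy z hz
    induction hy using Submodule.span_induction with
    | mem y hy => exact h1 x hx y hy z hz
    | zero => rw [map_zero, LinearMap.zero_apply]
    | add a b _ _ ha hb => rw [map_add, LinearMap.add_apply, ha, hb, add_zero]
    | smul q a _ ha => rw [map_smul, LinearMap.smul_apply, ha, smul_zero]
  intro x hx y hy z hz
  induction hx using Submodule.span_induction with
  | mem x hx => exact h2 x hx y hy z hz
  | zero => rw [map_zero, LinearMap.zero_apply, LinearMap.zero_apply]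
  | add a b _ _ ha hb => rw [map_add, LinearMap.add_apply, LinearMap.add_apply, ha, hb, add_zero]
  | smul q a _ ha => rw [map_smul, LinearMap.smul_apply, LinearMap.smul_apply, ha, smul_zero]

section step

variable {L c T} (hsym : Sym T) (hrel : Rel c T) {n : ℕ}
  (h0 : ∀ x ∈ L.W c n, ∀ y ∈ L.W c n, ∀ z ∈ L.W c n, T x y z = 0)

include hsym hrel h0

/-- part A -/
theorem stepA {P : A} (hP : P ∈ L.Pr n) (x y : A) (hx : x ∈ L.S n) (hy : y ∈ L.S n) :
    T (c.c x) (c.c y) (c.c P) = 0 := by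
  obtain ⟨D⟩ := L.exists_res n P hP
  have hP0 := (L.prime n P hP).ne_zero
  by_cases hx0 : x = 0
  · rw [hx0, c.zero, map_zero, LinearMap.zero_apply, LinearMap.zero_apply]
  by_cases hy0 : y = 0
  · rw [hy0, c.zero, map_zero, LinearMap.zero_apply]
  let B : M →ₗ[ℚ] M →ₗ[ℚ] ℚ := LinearMap.mk₂ ℚ (fun u v => T u v (c.c P))
    (fun a b v => by simp) (fun q a v => by simp) (fun a b v => by simp) (fun q a v => by simp)
  have hB : ∀ u v, B u v = T u v (c.c P) := fun u v => rfl
  have key := partA (G := D.κˣ) D.tors B (fun u v => by rw [hB, hB, hsym.s])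
    (fun r => c.c (D.s r)) (by
      change c.c (D.s ((1 : D.κˣ) : D.κ)) = 0
      rw [Units.val_one, D.s_one hP, c.one]) (by
      intro p q r w hpq
      have hp := D.s_ne hP p.ne_zero
      have hq := D.s_ne hP q.ne_zero
      have hr := D.s_ne hP r.ne_zero
      have hw := D.s_ne hP w.ne_zero
      have hd : P ∣ D.s p * D.s q - D.s r * D.s w := by
        rw [← D.ker, map_sub, map_mul, map_mul, D.ρ_s, D.ρ_s, D.ρ_s, D.ρ_s, ← Units.val_mul,
          ← Units.val_mul, hpq, sub_self]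
      obtain ⟨k, hk⟩ := hd
      rw [mul_comm P k] at hk
      have e1 : c.c (D.s p) + c.c (D.s q) - c.c (D.s r) - c.c (D.s w) =
          c.c (D.s p * D.s q) - c.c (D.s r * D.s w) := by
        rw [c.mul _ _ hp hq, c.mul _ _ hr hw]
        abel
      rw [e1, hB]
      by_cases hk0 : k = 0
      · rw [hk0, zero_mul, sub_eq_zero] at hk
        rw [hk, sub_self]
        simp
      have hkS := L.quot n P _ _ _ _ k hP (D.s_mem p) (D.s_mem q) (D.s_mem r) (D.s_mem w) hk
      have h1 := hrel (D.s r * D.s w) (k * P) (D.s p * D.s q) (mul_ne_zero hr hw)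
        (mul_ne_zero hk0 hP0) (mul_ne_zero hp hq) (by rw [← hk]; ring)
      rw [c.mul _ _ hk0 hP0] at h1
      have hW1 : c.c (D.s r * D.s w) - c.c (D.s p * D.s q) ∈ L.W c n :=
        Submodule.sub_mem _ (L.W_mul c (L.W_of c (Or.inl (D.s_mem r)))
          (L.W_of c (Or.inl (D.s_mem w)))) (L.W_mul c (L.W_of c (Or.inl (D.s_mem p)))
          (L.W_of c (Or.inl (D.s_mem q))))
      have hW2 : c.c k - c.c (D.s p * D.s q) ∈ L.W c n :=
        Submodule.sub_mem _ (L.W_of c hkS) (L.W_mul c (L.W_of c (Or.inl (D.s_mem p)))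
          (L.W_of c (Or.inl (D.s_mem q))))
      have e2 : c.c k + c.c P - c.c (D.s p * D.s q) =
          (c.c k - c.c (D.s p * D.s q)) + c.c P := by abel
      rw [e2, map_add, h0 _ hW1 _ hW1 _ hW2, zero_add] at h1
      have e3 : c.c (D.s p * D.s q) - c.c (D.s r * D.s w) =
          -(c.c (D.s r * D.s w) - c.c (D.s p * D.s q)) := by abel
      rw [e3]
      simp only [map_neg, LinearMap.neg_apply, neg_neg]
      exact h1)
  have h2 := key (Units.mk0 (D.ρ x) (D.ρ_ne hP hx hx0)) (Units.mk0 (D.ρ y) (D.ρ_ne hP hy hy0))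
  simp only [Units.val_mk0, D.s_ρ x hx, D.s_ρ y hy] at h2
  exact h2

theorem stepA' {P : A} (hP : P ∈ L.Pr n) (x y : M) (hx : x ∈ L.W c n) (hy : y ∈ L.W c n) :
    T x y (c.c P) = 0 := by
  have h1 : ∀ a ∈ L.S n, ∀ y ∈ L.W c n, T (c.c a) y (c.c P) = 0 := by
    intro a ha y hy
    induction hy using Submodule.span_induction with
    | mem y hy =>
      obtain ⟨b, hb, rfl⟩ := hy
      exact stepA hsym hrel h0 hP a b ha hb
    | zero => rw [map_zero, LinearMap.zero_apply]
    | add a b _ _ ha hb => rw [map_add, LinearMap.add_apply, ha, hb, add_zero]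
    | smul q a _ ha => rw [map_smul, LinearMap.smul_apply, ha, smul_zero]
  induction hx using Submodule.span_induction with
  | mem x hx =>
    obtain ⟨a, ha, rfl⟩ := hx
    exact h1 a ha y hy
  | zero => rw [map_zero, LinearMap.zero_apply, LinearMap.zero_apply]
  | add a b _ _ ha hb => rw [map_add, LinearMap.add_apply, LinearMap.add_apply, ha, hb, add_zero]
  | smul q a _ ha => rw [map_smul, LinearMap.smul_apply, LinearMap.smul_apply, ha, smul_zero]

/-- the antisymmetry of the remaining part -/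
theorem stepA'' {P : A} (hP : P ∈ L.Pr n) (x y : M) (hx : x ∈ L.W c n) (hy : y ∈ L.W c n) :
    T (c.c P) x y = - T (c.c P) y x := by
  have h1 := hsym.c x y (c.c P)
  rw [stepA' hsym hrel h0 hP x y hx hy, hsym.s y (c.c P) x] at h1
  linarith

/-- part B -/
theorem stepB {P : A} (hP : P ∈ L.Pr n) : (∀ x ∈ L.W c n, ∀ y ∈ L.W c n, T (c.c P) x y = 0) ∧
    ∀ x ∈ L.W c n, T (c.c P) (c.c P) x = 0 := by
  have hP0 := (L.prime n P hP).ne_zero
  set ω : M →ₗ[ℚ] M →ₗ[ℚ] ℚ := T (c.c P) - (T (c.c P)).flip with hω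
  have hωe : ∀ x y, ω x y = T (c.c P) x y - T (c.c P) y x := fun x y => rfl
  have hωa : ∀ x, ω x x = 0 := fun x => by rw [hωe, sub_self]
  have hH : HB L c ω (T (c.c P) (c.c P)) n P := by
    intro a b k ha hb hk haW hbW hkW _ e
    have h1 := hrel (k * P) a b (mul_ne_zero hk hP0) ha hb (by rw [← e]; ring)
    rw [c.mul _ _ hk hP0] at h1
    have e2 : c.c k + c.c P - c.c b = (c.c k - c.c b) + c.c P := by abel
    rw [e2] at h1
    have hκ : c.c k - c.c b ∈ L.W c n := Submodule.sub_mem _ hkW hbW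
    have hu : c.c a - c.c b ∈ L.W c n := Submodule.sub_mem _ haW hbW
    have h2 : tt ω (c.c a) (c.c k) (c.c b) = ω (c.c a - c.c b) (c.c k - c.c b) := by
      unfold tt
      simp only [map_sub, LinearMap.sub_apply, hωa]
      rw [alt_swap ω hωa (c.c k) (c.c b), alt_swap ω hωa (c.c b) (c.c a)]
      ring
    have h3 := stepA'' hsym hrel h0 hP _ _ hu hκ
    rw [h2, hωe, h3, ← map_sub]
    set κ := c.c k - c.c b with hκ'
    set u := c.c a - c.c b with hu'
    have h4 : T (κ + c.c P) (κ + c.c P) u =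
        T κ κ u + T κ (c.c P) u + T (c.c P) κ u + T (c.c P) (c.c P) u := by
      simp only [map_add, LinearMap.add_apply]
      ring
    rw [h4, h0 κ hκ κ hκ u hu, hsym.s κ (c.c P) u] at h1
    linarith
  obtain ⟨hb1, hb2⟩ := partB L c ω (T (c.c P) (c.c P)) hP hωa hH
  have h1 : ∀ x ∈ L.S n, ∀ y ∈ L.S n, T (c.c P) (c.c x) (c.c y) = 0 := by
    intro x hx y hy
    have h2 := hb1 x hx y hy
    rw [hωe] at h2
    have h3 := stepA'' hsym hrel h0 hP _ _ (L.W_of c (Or.inl hx)) (L.W_of c (Or.inl hy))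
    linarith
  constructor
  · intro x hx y hy
    have h2 : ∀ a ∈ L.S n, ∀ y ∈ L.W c n, T (c.c P) (c.c a) y = 0 := by
      intro a ha y hy
      induction hy using Submodule.span_induction with
      | mem y hy =>
        obtain ⟨b, hb, rfl⟩ := hy
        exact h1 a ha b hb
      | zero => rw [map_zero]
      | add a b _ _ ha hb => rw [map_add, ha, hb, add_zero]
      | smul q a _ ha => rw [map_smul, ha, smul_zero]
    induction hx using Submodule.span_induction with
    | mem x hx =>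
      obtain ⟨a, ha, rfl⟩ := hx
      exact h2 a ha y hy
    | zero => rw [map_zero, LinearMap.zero_apply]
    | add a b _ _ ha hb => rw [map_add, LinearMap.add_apply, ha, hb, add_zero]
    | smul q a _ ha => rw [map_smul, LinearMap.smul_apply, ha, smul_zero]
  · intro x hx
    induction hx using Submodule.span_induction with
    | mem x hx =>
      obtain ⟨a, ha, rfl⟩ := hx
      exact hb2 a ha
    | zero => rw [map_zero]
    | add a b _ _ ha hb => rw [map_add, ha, hb, add_zero]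
    | smul q a _ ha => rw [map_smul, ha, smul_zero]

/-- the pairing of two different primes of the same level with small elements -/
theorem stepE {P P' : A} (hP : P ∈ L.Pr n) (hP' : P' ∈ L.Pr n) (hne : P ≠ P') :
    T (c.c P') (c.c P') (c.c P) = 0 ∧ ∀ x ∈ L.W c n, T x (c.c P') (c.c P) = 0 := by
  obtain ⟨D⟩ := L.exists_res n P hP
  have hPr := L.prime n P hP
  have hPr' := L.prime n P' hP'
  have hP0 := hPr.ne_zero
  have hP'0 := hPr'.ne_zero
  obtain ⟨hB1, hB2⟩ := stepB hsym hrel h0 hP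
  obtain ⟨hB1', hB2'⟩ := stepB hsym hrel h0 hP'
  have hdiff := L.diff n P P' hP hP'
  have hndvd : ∀ w, (w ∈ L.S n ∨ -w ∈ L.S n) → w ≠ 0 → ¬ P ∣ w := by
    intro w hw hw0 h
    rcases hw with hw | hw
    · exact hw0 (L.inj n P w hP hw h)
    · exact hw0 (neg_eq_zero.1 (L.inj n P _ hP hw ((dvd_neg).2 h)))
  have hPP' : ¬ P ∣ P' := by
    intro h
    exact hndvd _ hdiff (sub_ne_zero.2 (Ne.symm hne)) (dvd_sub h dvd_rfl)
  have hρ' : D.ρ P' ≠ 0 := fun h => hPP' ((D.ker P').1 h)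
  set m' := T (c.c P') (c.c P') (c.c P) with hm'
  set b : M → ℚ := fun x => T x (c.c P') (c.c P) with hb
  -- the relations
  have key : ∀ x ∈ L.S n, ∀ y ∈ L.S n, ∀ z ∈ L.S n, x ≠ 0 → y ≠ 0 → z ≠ 0 →
      P ∣ P' * x - y * z → b (c.c y) + b (c.c z) - b (c.c x) = m' / 2 := by
    intro x hx y hy z hz hx0 hy0 hz0 hd
    obtain ⟨k, hk⟩ := hd
    rw [mul_comm P k] at hk
    have hkS := L.quot2 n P P' x y z k hP hP' hne hx hy hz hk
    have hk0 : k ≠ 0 := by
      intro h
      rw [h, zero_mul, sub_eq_zero] at hk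
      have h1 : P' ∣ y * z := ⟨x, hk.symm⟩
      rcases hPr'.dvd_or_dvd h1 with h2 | h2
      · exact hy0 (L.inj n P' y hP' hy h2)
      · exact hz0 (L.inj n P' z hP' hz h2)
    have h1 := hrel (y * z) (k * P) (P' * x) (mul_ne_zero hy0 hz0) (mul_ne_zero hk0 hP0)
      (mul_ne_zero hP'0 hx0) (by rw [← hk]; ring)
    rw [c.mul _ _ hy0 hz0, c.mul _ _ hk0 hP0, c.mul _ _ hP'0 hx0] at h1
    have hu : c.c y + c.c z - c.c x ∈ L.W c n := Submodule.sub_mem _ (Submodule.add_mem _
      (L.W_of c (Or.inl hy)) (L.W_of c (Or.inl hz))) (L.W_of c (Or.inl hx))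
    have hv : c.c k - c.c x ∈ L.W c n := Submodule.sub_mem _ (L.W_of c hkS)
      (L.W_of c (Or.inl hx))
    have e1 : c.c y + c.c z - (c.c P' + c.c x) = (c.c y + c.c z - c.c x) - c.c P' := by abel
    have e2 : c.c k + c.c P - (c.c P' + c.c x) = (c.c k - c.c x) + c.c P - c.c P' := by abel
    rw [e1, e2] at h1
    have e3 : b (c.c y) + b (c.c z) - b (c.c x) = b (c.c y + c.c z - c.c x) := by
      simp only [hb, map_add, map_sub, LinearMap.add_apply, LinearMap.sub_apply]
    rw [e3]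
    set u := c.c y + c.c z - c.c x with hu'
    set v := c.c k - c.c x with hv'
    have e4 : T (u - c.c P') (u - c.c P') (v + c.c P - c.c P') =
        T u u v + T u u (c.c P) - T u u (c.c P') - 2 * (T (c.c P') u v) - 2 * b u
          + 2 * (T (c.c P') u (c.c P')) + T (c.c P') (c.c P') v + m'
          - T (c.c P') (c.c P') (c.c P') := by
      simp only [map_add, map_sub, LinearMap.sub_apply, hb, hm']
      rw [hsym.s u (c.c P') v, hsym.s u (c.c P') (c.c P), hsym.s u (c.c P') (c.c P')]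
      ring
    have e5 : T (c.c P') u (c.c P') = 0 := by
      have := hsym.two (c.c P') u
      rw [hB2' u hu] at this
      linarith
    rw [e4, h0 u hu u hu v hv, stepA' hsym hrel h0 hP u u hu hu,
      stepA' hsym hrel h0 hP' u u hu hu, hB1' u hu v hv, e5, hB2' v hv, hsym.three] at h1
    linarith
  -- translated to the residue field
  set ψ : D.κˣ → ℚ := fun r => b (c.c (D.s r)) with hψ
  set q : D.κˣ := Units.mk0 (D.ρ P') hρ' with hq
  have key2 : ∀ x y z : D.κˣ, q * x = y * z → ψ y + ψ z - ψ x = m' / 2 := by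
    intro x y z h
    refine key _ (D.s_mem x) _ (D.s_mem y) _ (D.s_mem z) (D.s_ne hP x.ne_zero)
      (D.s_ne hP y.ne_zero) (D.s_ne hP z.ne_zero) ?_
    rw [← D.ker, map_sub, map_mul, map_mul, D.ρ_s, D.ρ_s, D.ρ_s]
    have h1 := congrArg (fun u : D.κˣ => (u : D.κ)) h
    simp only [Units.val_mul, hq, Units.val_mk0] at h1
    rw [h1, sub_self]
  have hψ1 : ψ 1 = 0 := by
    simp only [hψ, hb]
    rw [Units.val_one, D.s_one hP, c.one, map_zero, LinearMap.zero_apply, LinearMap.zero_apply]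
  have hψq : ∀ x, ψ (q * x) = ψ x + m' / 2 := by
    intro x
    have := key2 x (q * x) 1 (by rw [mul_one])
    rw [hψ1] at this
    linarith
  have hm0 : m' = 0 := by
    obtain ⟨N, hN, h1⟩ := D.tors q
    have h2 : ∀ n : ℕ, ψ (q ^ n) = n * (m' / 2) := by
      intro n
      induction n with
      | zero => simp [hψ1]
      | succ n ih => rw [pow_succ', hψq, ih]; push_cast; ring
    have h3 := h2 N
    rw [h1, hψ1] at h3
    have h4 : (N : ℚ) ≠ 0 := by exact_mod_cast hN.ne'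
    have h5 := (mul_eq_zero.1 h3.symm).resolve_left h4
    linarith
  have hψ0 : ∀ x, ψ x = 0 := by
    refine hom_zero D.tors ψ ?_
    intro x y
    have h1 := key2 (q⁻¹ * (x * y)) x y (by rw [mul_inv_cancel_left])
    have h2 := hψq (q⁻¹ * (x * y))
    rw [mul_inv_cancel_left, hm0] at h2
    rw [hm0] at h1
    linarith
  refine ⟨hm0, fun x hx => ?_⟩
  induction hx using Submodule.span_induction with
  | mem x hx =>
    obtain ⟨a, ha, rfl⟩ := hx
    by_cases ha0 : a = 0
    · rw [ha0, c.zero, map_zero, LinearMap.zero_apply, LinearMap.zero_apply]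
    have h1 := hψ0 (Units.mk0 (D.ρ a) (D.ρ_ne hP ha ha0))
    simp only [hψ, hb, Units.val_mk0, D.s_ρ a ha] at h1
    exact h1
  | zero => rw [map_zero, LinearMap.zero_apply, LinearMap.zero_apply]
  | add a b _ _ ha hb => rw [map_add, LinearMap.add_apply, LinearMap.add_apply, ha, hb, add_zero]
  | smul q a _ ha => rw [map_smul, LinearMap.smul_apply, LinearMap.smul_apply, ha, smul_zero]

/-- three different primes of the same level -/
theorem stepF {P P' P'' : A} (hP : P ∈ L.Pr n) (hP' : P' ∈ L.Pr n) (hP'' : P'' ∈ L.Pr n)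
    (h1 : P ≠ P') (h2 : P ≠ P'') (h3 : P' ≠ P'') : T (c.c P'') (c.c P') (c.c P) = 0 := by
  have hP0 := (L.prime n P hP).ne_zero
  have hP'0 := (L.prime n P' hP').ne_zero
  have hP''0 := (L.prime n P'' hP'').ne_zero
  have d1 : P' - P ≠ 0 := sub_ne_zero.2 (Ne.symm h1)
  have d2 : P'' - P ≠ 0 := sub_ne_zero.2 (Ne.symm h2)
  have d3 : P'' - P' ≠ 0 := sub_ne_zero.2 (Ne.symm h3)
  have w1 : c.c (P' - P) ∈ L.W c n := L.W_of c (L.diff n P P' hP hP')
  have w2 : c.c (P'' - P) ∈ L.W c n := L.W_of c (L.diff n P P'' hP hP'')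
  have w3 : c.c (P'' - P') ∈ L.W c n := L.W_of c (L.diff n P' P'' hP' hP'')
  have hr := hrel (P'' * (P' - P)) ((P'' - P') * P) (P' * (P'' - P)) (mul_ne_zero hP''0 d1)
    (mul_ne_zero d3 hP0) (mul_ne_zero hP'0 d2) (by ring)
  rw [c.mul _ _ hP''0 d1, c.mul _ _ d3 hP0, c.mul _ _ hP'0 d2] at hr
  set u := c.c (P' - P) - c.c (P'' - P) with hu
  set v := c.c (P'' - P') - c.c (P'' - P) with hv
  have huW : u ∈ L.W c n := Submodule.sub_mem _ w1 w2
  have hvW : v ∈ L.W c n := Submodule.sub_mem _ w3 w2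
  have e1 : c.c P'' + c.c (P' - P) - (c.c P' + c.c (P'' - P)) = c.c P'' - c.c P' + u := by
    rw [hu]; abel
  have e2 : c.c (P'' - P') + c.c P - (c.c P' + c.c (P'' - P)) = c.c P - c.c P' + v := by
    rw [hv]; abel
  rw [e1, e2] at hr
  -- values with at most two primes of level `n`
  obtain ⟨m1, b1⟩ := stepE hsym hrel h0 hP hP' h1
  obtain ⟨m1', b1'⟩ := stepE hsym hrel h0 hP' hP (Ne.symm h1)
  obtain ⟨m2, b2⟩ := stepE hsym hrel h0 hP hP'' h2
  obtain ⟨m2', b2'⟩ := stepE hsym hrel h0 hP'' hP (Ne.symm h2)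
  obtain ⟨m3, b3⟩ := stepE hsym hrel h0 hP' hP'' h3
  obtain ⟨m3', b3'⟩ := stepE hsym hrel h0 hP'' hP' (Ne.symm h3)
  obtain ⟨B1, B2⟩ := stepB hsym hrel h0 hP
  obtain ⟨B1', B2'⟩ := stepB hsym hrel h0 hP'
  obtain ⟨B1'', B2''⟩ := stepB hsym hrel h0 hP''
  have t1 := hsym.c (c.c P'') (c.c P') v
  have t2 := hsym.two (c.c P') (c.c P'')
  have t3 := hsym.two (c.c P') u
  rw [hsym.s (c.c P') v (c.c P''), b3' v hvW, b3 v hvW] at t1
  rw [m3'] at t2
  rw [B2' u huW] at t3
  simp only [map_add, map_sub, LinearMap.sub_apply, LinearMap.add_apply] at hr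
  rw [hsym.s (c.c P') (c.c P'') (c.c P), hsym.s (c.c P') (c.c P'') (c.c P'),
    hsym.s (c.c P') (c.c P'') v, hsym.s (c.c P'') u (c.c P), hsym.s (c.c P'') u (c.c P'),
    hsym.s (c.c P') u (c.c P), hsym.s u (c.c P') (c.c P'), hsym.s u (c.c P'') v,
    hsym.s u (c.c P') v] at hr
  rw [hsym.s (c.c P'') (c.c P') (c.c P')] at hr
  rw [m2, m3, B2'' v hvW, m1, hsym.three, B2' v hvW, b2 u huW, b3 u huW, B1'' u huW v hvW,
    b1 u huW, B1' u huW v hvW, stepA' hsym hrel h0 hP u u huW huW,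
    stepA' hsym hrel h0 hP' u u huW huW, h0 u huW u huW v hvW] at hr
  linarith

end step

/-- the induction -/
theorem main_level (hsym : Sym T) (hrel : Rel c T) (n : ℕ) :
    ∀ x ∈ L.W c n, ∀ y ∈ L.W c n, ∀ z ∈ L.W c n, T x y z = 0 := by
  induction n with
  | zero =>
    refine span_zero T _ ?_
    rintro x ⟨a, ha, rfl⟩ y _ z _
    rw [L.base a ha, c.zero, map_zero, LinearMap.zero_apply, LinearMap.zero_apply]
  | succ n ih =>
    set X : Set M := (c.c '' L.S n) ∪ (c.c '' L.Pr n) with hX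
    have hle : L.W c (n + 1) ≤ Submodule.span ℚ X := by
      unfold Lev.W
      rw [Submodule.span_le]
      rintro _ ⟨x, hx, rfl⟩
      refine W_succ L c n (fun y => y ∈ Submodule.span ℚ X) (Submodule.zero_mem _)
        (fun a b ha hb => Submodule.add_mem _ ha hb)
        (fun y hy => Submodule.subset_span (Or.inl ⟨y, hy, rfl⟩))
        (fun P hP => Submodule.subset_span (Or.inr ⟨P, hP, rfl⟩)) x hx
    have hA := fun {P : A} (hP : P ∈ L.Pr n) => stepA' hsym hrel ih hP
    have hB := fun {P : A} (hP : P ∈ L.Pr n) => stepB hsym hrel ih hP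
    have hSW : ∀ x ∈ L.S n, c.c x ∈ L.W c n := fun x hx => L.W_of c (Or.inl hx)
    -- `T x P P' = 0`
    have g1 : ∀ x ∈ L.S n, ∀ P ∈ L.Pr n, ∀ P' ∈ L.Pr n, T (c.c x) (c.c P) (c.c P') = 0 := by
      intro x hx P hP P' hP'
      by_cases h : P' = P
      · have h1 := hsym.two (c.c P) (c.c x)
        rw [(hB hP).2 _ (hSW x hx)] at h1
        rw [h, hsym.s]
        linarith
      · exact (stepE hsym hrel ih hP' hP h).2 _ (hSW x hx)
    -- `T P P' x = 0`
    have g2 : ∀ x ∈ L.S n, ∀ P ∈ L.Pr n, ∀ P' ∈ L.Pr n, T (c.c P) (c.c P') (c.c x) = 0 := by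
      intro x hx P hP P' hP'
      have h1 := hsym.c (c.c P) (c.c P') (c.c x)
      rw [hsym.s (c.c P') (c.c x), g1 x hx P' hP' P hP, g1 x hx P hP P' hP'] at h1
      linarith
    -- `T P P' P'' = 0`
    have g3 : ∀ P ∈ L.Pr n, ∀ P' ∈ L.Pr n, ∀ P'' ∈ L.Pr n,
        T (c.c P) (c.c P') (c.c P'') = 0 := by
      intro P hP P' hP' P'' hP''
      by_cases h1 : P = P'
      · subst h1
        by_cases h2 : P'' = P
        · rw [h2, hsym.three]
        · exact (stepE hsym hrel ih hP'' hP h2).1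
      by_cases h2 : P'' = P'
      · have h3 := hsym.two (c.c P') (c.c P)
        rw [(stepE hsym hrel ih hP hP' h1).1] at h3
        rw [h2, hsym.s]
        linarith
      by_cases h3 : P'' = P
      · have h4 := hsym.two (c.c P) (c.c P')
        rw [(stepE hsym hrel ih hP' hP (Ne.symm h1)).1] at h4
        rw [h3]
        linarith
      exact stepF hsym hrel ih hP'' hP' hP h2 h3 (Ne.symm h1)
    have hXz : ∀ x ∈ X, ∀ y ∈ X, ∀ z ∈ X, T x y z = 0 := by
      rintro _ (⟨x, hx, rfl⟩ | ⟨P, hP, rfl⟩) _ (⟨y, hy, rfl⟩ | ⟨P', hP', rfl⟩) _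
        (⟨z, hz, rfl⟩ | ⟨P'', hP'', rfl⟩)
      · exact ih _ (hSW x hx) _ (hSW y hy) _ (hSW z hz)
      · exact hA hP'' _ _ (hSW x hx) (hSW y hy)
      · rw [hsym.s]
        exact (hB hP').1 _ (hSW x hx) _ (hSW z hz)
      · exact g1 x hx P' hP' P'' hP''
      · exact (hB hP).1 _ (hSW y hy) _ (hSW z hz)
      · rw [hsym.s]
        exact g1 y hy P hP P'' hP''
      · exact g2 z hz P hP P' hP'
      · exact g3 P hP P' hP' P'' hP''
    have h := span_zero T X hXz
    exact fun x hx y hy z hz => h x (hle hx) y (hle hy) z (hle hz)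

include L in
/-- trilinear forms which vanish on the trilogarithm symbols vanish -/
theorem main3 (hsym : Sym T) (hrel : Rel c T) (x y z : A) : T (c.c x) (c.c y) (c.c z) = 0 := by
  obtain ⟨n1, h1⟩ := L.ex x
  obtain ⟨n2, h2⟩ := L.ex y
  obtain ⟨n3, h3⟩ := L.ex z
  have m1 : n1 ≤ max n1 (max n2 n3) := le_max_left _ _
  have m2 : n2 ≤ max n1 (max n2 n3) := (le_max_left _ _).trans (le_max_right _ _)
  have m3 : n3 ≤ max n1 (max n2 n3) := (le_max_right _ _).trans (le_max_right _ _)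
  exact main_level L c T hsym hrel (max n1 (max n2 n3))
    _ (L.W_of c (h1.imp (fun h => L.S_mono m1 h) (fun h => L.S_mono m1 h)))
    _ (L.W_of c (h2.imp (fun h => L.S_mono m2 h) (fun h => L.S_mono m2 h)))
    _ (L.W_of c (h3.imp (fun h => L.S_mono m3 h) (fun h => L.S_mono m3 h)))

include L in
/-- bilinear alternating forms which vanish on the dilogarithm symbols vanish -/
theorem main2 (ω : M →ₗ[ℚ] M →ₗ[ℚ] ℚ) (hω : ∀ x, ω x x = 0)
    (h : ∀ a b e : A, a ≠ 0 → b ≠ 0 → e ≠ 0 → a + b = e → tt ω (c.c a) (c.c b) (c.c e) = 0)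
    (x y : A) : ω (c.c x) (c.c y) = 0 := by
  obtain ⟨n1, h1⟩ := L.ex x
  obtain ⟨n2, h2⟩ := L.ex y
  have key := tate L c ω hω (max n1 n2) (fun m _ P hP x _ y _ z _ hx hy hz k hk _ e => ?_)
    (fun m _ P hP P' hP' hne => ?_)
  · have e1 : ∀ x : A, (x ∈ L.S (max n1 n2) ∨ -x ∈ L.S (max n1 n2)) →
        ∃ x' ∈ L.S (max n1 n2), c.c x = c.c x' := by
      rintro x (h | h)
      · exact ⟨x, h, rfl⟩
      · exact ⟨-x, h, (c.neg x).symm⟩
    obtain ⟨x', hx', ex⟩ := e1 x (h1.imp (fun h => L.S_mono (le_max_left _ _) h)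
      (fun h => L.S_mono (le_max_left _ _) h))
    obtain ⟨y', hy', ey⟩ := e1 y (h2.imp (fun h => L.S_mono (le_max_right _ _) h)
      (fun h => L.S_mono (le_max_right _ _) h))
    rw [ex, ey]
    exact key x' hx' y' hy'
  · exact h z (k * P) (x * y) hz (mul_ne_zero hk (L.prime m P hP).ne_zero) (mul_ne_zero hx hy)
      (by rw [← e]; ring)
  · exact h P (P' - P) P' (L.prime m P hP).ne_zero (sub_ne_zero.2 (Ne.symm hne))
      (L.prime m P' hP').ne_zero (by ring)

end Pool.Agent.V8H63.W3
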