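import Pool.Agent.H39R2.Gon.B2
import Pool.Agent.V8H63.W3.Main

set_option autoImplicit false

/-!
# The symbols span: passage to `F^* ⊗ ℚ`
-/

namespace Pool.Agent.V8H63.W3

open scoped TensorProduct
open H39Gon H39Gon.TaskB

section ext

variable {V : Type} [AddCommGroup V]

/-- extension of scalars for linear maps to `ℚ`-vector spaces -/
noncomputable def lf {N : Type} [AddCommGroup N] [Module ℚ N] :
    (V →ₗ[ℤ] N) →ₗ[ℤ] ((ℚ ⊗[ℤ] V) →ₗ[ℚ] N) :=
  AddMonoidHom.toIntLinearMap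
    { toFun := fun f => LinearMap.liftBaseChange ℚ f
      map_zero' := by
        apply TensorProduct.AlgebraTensorModule.curry_injective
        ext x
        simp
      map_add' := fun f g => by
        apply TensorProduct.AlgebraTensorModule.curry_injective
        ext x
        simp }

theorem lf_apply {N : Type} [AddCommGroup N] [Module ℚ N] (f : V →ₗ[ℤ] N) (v : V) :
    lf f ((1 : ℚ) ⊗ₜ[ℤ] v) = f v := by
  change LinearMap.liftBaseChange ℚ f ((1 : ℚ) ⊗ₜ[ℤ] v) = f v
  rw [LinearMap.liftBaseChange_tmul, one_smul]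

/-- extension of bilinear forms -/
noncomputable def ext2 (T : V →ₗ[ℤ] V →ₗ[ℤ] ℚ) : (ℚ ⊗[ℤ] V) →ₗ[ℚ] (ℚ ⊗[ℤ] V) →ₗ[ℚ] ℚ :=
  lf (lf ∘ₗ T)

theorem ext2_apply (T : V →ₗ[ℤ] V →ₗ[ℤ] ℚ) (x y : V) :
    ext2 T ((1 : ℚ) ⊗ₜ[ℤ] x) ((1 : ℚ) ⊗ₜ[ℤ] y) = T x y := by
  unfold ext2
  rw [lf_apply, LinearMap.comp_apply, lf_apply]

/-- extension of trilinear forms -/
noncomputable def ext3 (T : V →ₗ[ℤ] V →ₗ[ℤ] V →ₗ[ℤ] ℚ) :
    (ℚ ⊗[ℤ] V) →ₗ[ℚ] (ℚ ⊗[ℤ] V) →ₗ[ℚ] (ℚ ⊗[ℤ] V) →ₗ[ℚ] ℚ :=
  lf (AddMonoidHom.toIntLinearMap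
    { toFun := fun x => lf (lf ∘ₗ T x)
      map_zero' := by rw [map_zero, LinearMap.comp_zero, map_zero]
      map_add' := fun x y => by rw [map_add, LinearMap.comp_add, map_add] })

theorem ext3_apply (T : V →ₗ[ℤ] V →ₗ[ℤ] V →ₗ[ℤ] ℚ) (x y z : V) :
    ext3 T ((1 : ℚ) ⊗ₜ[ℤ] x) ((1 : ℚ) ⊗ₜ[ℤ] y) ((1 : ℚ) ⊗ₜ[ℤ] z) = T x y z := by
  unfold ext3
  rw [lf_apply]
  change lf (lf ∘ₗ T x) ((1 : ℚ) ⊗ₜ[ℤ] y) ((1 : ℚ) ⊗ₜ[ℤ] z) = T x y z
  rw [lf_apply, LinearMap.comp_apply, lf_apply]

theorem tens_ind (p : (ℚ ⊗[ℤ] V) → Prop) (h0 : p 0) (hadd : ∀ x y, p x → p y → p (x + y))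
    (hs : ∀ (q : ℚ) x, p x → p (q • x)) (h1 : ∀ v : V, p ((1 : ℚ) ⊗ₜ[ℤ] v)) (x : ℚ ⊗[ℤ] V) :
    p x := by
  induction x using TensorProduct.induction_on with
  | zero => exact h0
  | tmul q v =>
    have : q ⊗ₜ[ℤ] v = q • ((1 : ℚ) ⊗ₜ[ℤ] v) := by
      rw [TensorProduct.smul_tmul', smul_eq_mul, mul_one]
    rw [this]
    exact hs q _ (h1 v)
  | add x y hx hy => exact hadd x y hx hy

end ext

section conv

variable {A F : Type} [CommRing A] [IsDomain A] [Field F] [Algebra A F] [IsFractionRing A F]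

/-- the class map on `A` -/
noncomputable def lgF (hu : ∀ u : A, IsUnit u → ∃ N : ℕ, 0 < N ∧ u ^ N = 1) :
    Lg A (ℚ ⊗[ℤ] UV F) where
  c a := (1 : ℚ) ⊗ₜ[ℤ] cl (algebraMap A F a)
  zero := by
    rw [map_zero]
    simp [cl]
  mul a b ha hb := by
    have hA : Function.Injective (algebraMap A F) := IsFractionRing.injective A F
    rw [map_mul, cl_mul ((map_ne_zero_iff _ hA).2 ha) ((map_ne_zero_iff _ hA).2 hb),
      TensorProduct.tmul_add]
  unit u h := by
    obtain ⟨N, hN, h1⟩ := hu u h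
    have hA : Function.Injective (algebraMap A F) := IsFractionRing.injective A F
    have hu0 : algebraMap A F u ≠ 0 := (map_ne_zero_iff _ hA).2 h.ne_zero
    have h2 : N • cl (algebraMap A F u) = 0 := by
      rw [← cl_pow hu0, ← map_pow, h1, map_one, cl_one]
    have h3 : (N : ℚ) • ((1 : ℚ) ⊗ₜ[ℤ] cl (algebraMap A F u)) = 0 := by
      rw [Nat.cast_smul_eq_nsmul, ← TensorProduct.tmul_smul, h2, TensorProduct.tmul_zero]
    exact (smul_eq_zero.1 h3).resolve_left (by exact_mod_cast hN.ne')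

theorem lgF_c (hu : ∀ u : A, IsUnit u → ∃ N : ℕ, 0 < N ∧ u ^ N = 1) (a : A) :
    (lgF (F := F) hu).c a = (1 : ℚ) ⊗ₜ[ℤ] cl (algebraMap A F a) := rfl

theorem two_cl_neg_one : 2 • cl (-1 : F) = 0 := by
  rw [← cl_pow (by simp), neg_one_sq, cl_one]

theorem cl_one_sub_inv {f : F} (h0 : f ≠ 0) (h1 : f ≠ 1) :
    cl (1 - f⁻¹) = cl (-1 : F) + cl (1 - f) - cl f := by
  have h2 : 1 - f ≠ 0 := sub_ne_zero.2 (Ne.symm h1)
  have h3 : 1 - f⁻¹ = (-1 * (1 - f)) / f := by
    field_simp
    ring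
  rw [h3, cl_div (mul_ne_zero (by simp) h2) h0, cl_mul (by simp) h2]

theorem tor_zero {N : Type} [AddCommGroup N] [Module ℚ N] (φ : UV F →ₗ[ℤ] N) :
    φ (cl (-1 : F)) = 0 := by
  have h : (2 : ℚ) • φ (cl (-1 : F)) = 0 := by
    have h1 := congrArg φ (two_cl_neg_one (F := F))
    rw [map_nsmul, map_zero] at h1
    rw [show (2 : ℚ) = ((2 : ℕ) : ℚ) by norm_num, Nat.cast_smul_eq_nsmul]
    exact h1
  exact (smul_eq_zero.1 h).resolve_left two_ne_zero

/-- the diagonal values -/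
theorem diag_zero {m : ℕ} (Q : MultilinearMap ℤ (fun _ : Fin (m + 1) => UV F) (UV F →ₗ[ℤ] ℚ))
    (h : ∀ f : F, f ≠ 0 → f ≠ 1 → Q (fun _ => cl f) (cl (1 - f)) = 0) (v : UV F) :
    Q (fun _ => v) v = 0 := by
  obtain ⟨f, hf, rfl⟩ := exists_cl v
  by_cases h1 : f = 1
  · rw [h1, cl_one, map_zero]
  have h2 := h f⁻¹ (inv_ne_zero hf) (fun e => h1 (inv_eq_one.1 e))
  rw [cl_one_sub_inv hf h1, cl_inv hf] at h2
  have h3 : Q (fun _ => -cl f) = (-1 : ℤ) ^ (m + 1) • Q (fun _ => cl f) := by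
    have := Q.map_smul_univ (fun _ => (-1 : ℤ)) (fun _ => cl f)
    simpa using this
  rw [h3, LinearMap.smul_apply, map_sub, map_add, h f hf h1, tor_zero, zero_add, zero_sub] at h2
  rcases neg_one_pow_eq_or ℤ (m + 1) with e | e
  · rw [e, one_smul] at h2
    linarith
  · rw [e, neg_smul, one_smul] at h2
    linarith

variable (L : Lev A) (hu : ∀ u : A, IsUnit u → ∃ N : ℕ, 0 < N ∧ u ^ N = 1)

include L hu

theorem spanDual0 : SpanDual F 0 := by
  intro Q hQ
  have hA : Function.Injective (algebraMap A F) := IsFractionRing.injective A F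
  let T : UV F →ₗ[ℤ] UV F →ₗ[ℤ] ℚ := LinearMap.mk₂ ℤ (fun x y => Q (fun _ => x) y)
    (fun x y z => by
      have : Q (fun _ => x + y) = Q (fun _ => x) + Q (fun _ => y) := by
        have h := Q.map_update_add (fun _ => x) 0 x y
        have e : ∀ w : UV F, Function.update (fun _ : Fin 1 => x) 0 w = fun _ => w := by
          intro w
          funext i
          rw [Subsingleton.elim i 0, Function.update_self]
        rwa [e, e, e] at h
      rw [this, LinearMap.add_apply])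
    (fun r x z => by
      have : Q (fun _ => r • x) = r • Q (fun _ => x) := by
        have h := Q.map_update_smul (fun _ => x) 0 r x
        have e : ∀ w : UV F, Function.update (fun _ : Fin 1 => x) 0 w = fun _ => w := by
          intro w
          funext i
          rw [Subsingleton.elim i 0, Function.update_self]
        rwa [e, e] at h
      rw [this, LinearMap.smul_apply])
    (fun x y z => map_add _ _ _) (fun r x z => map_smul _ _ _)
  have hT : ∀ x y, T x y = Q (fun _ => x) y := fun x y => rfl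
  have hTd : ∀ v, T v v = 0 := diag_zero Q hQ
  have hTs : ∀ x y, T x y + T y x = 0 := by
    intro x y
    have h := hTd (x + y)
    simp only [map_add, LinearMap.add_apply, hTd] at h
    linarith
  set ω := ext2 T with hω
  have hωs : ∀ x y, ω x y + ω y x = 0 := by
    intro x y
    refine tens_ind (fun x => ω x y + ω y x = 0) (by simp) (fun a b ha hb => ?_)
      (fun q a ha => ?_) (fun v => ?_) x
    · simp only [map_add, LinearMap.add_apply] at ha hb ⊢
      linarith
    · simp only [map_smul, LinearMap.smul_apply, smul_eq_mul] at ha ⊢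
      rw [← mul_add, ha, mul_zero]
    · refine tens_ind (fun y => ω ((1 : ℚ) ⊗ₜ[ℤ] v) y + ω y ((1 : ℚ) ⊗ₜ[ℤ] v) = 0) (by simp)
        (fun a b ha hb => ?_) (fun q a ha => ?_) (fun w => ?_) y
      · simp only [map_add, LinearMap.add_apply] at ha hb ⊢
        linarith
      · simp only [map_smul, LinearMap.smul_apply, smul_eq_mul] at ha ⊢
        rw [← mul_add, ha, mul_zero]
      · rw [hω, ext2_apply, ext2_apply, hTs]
  have hωa : ∀ x, ω x x = 0 := fun x => by have := hωs x x; linarith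
  have key := main2 L (lgF (F := F) hu) ω hωa (by
    intro a b e ha hb he hab
    have h1 : tt ω ((lgF (F := F) hu).c a) ((lgF (F := F) hu).c b) ((lgF (F := F) hu).c e) =
        ω ((lgF (F := F) hu).c a - (lgF (F := F) hu).c e)
          ((lgF (F := F) hu).c b - (lgF (F := F) hu).c e) := by
      unfold tt
      simp only [map_sub, LinearMap.sub_apply, hωa]
      rw [alt_swap ω hωa ((lgF (F := F) hu).c e) ((lgF (F := F) hu).c a)]
      rw [alt_swap ω hωa ((lgF (F := F) hu).c e) ((lgF (F := F) hu).c b)]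
      ring
    have ha' : algebraMap A F a ≠ 0 := (map_ne_zero_iff _ hA).2 ha
    have hb' : algebraMap A F b ≠ 0 := (map_ne_zero_iff _ hA).2 hb
    have he' : algebraMap A F e ≠ 0 := (map_ne_zero_iff _ hA).2 he
    rw [h1, lgF_c, lgF_c, lgF_c, ← TensorProduct.tmul_sub, ← TensorProduct.tmul_sub,
      ← cl_div ha' he', ← cl_div hb' he', hω, ext2_apply, hT]
    have h2 : 1 - algebraMap A F a / algebraMap A F e = algebraMap A F b / algebraMap A F e := by
      rw [← hab, map_add]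
      rw [← hab, map_add] at he'
      field_simp
      ring
    rw [← h2]
    refine hQ _ (div_ne_zero ha' he') ?_
    intro h3
    rw [h3, sub_self] at h2
    exact div_ne_zero hb' he' h2.symm)
  intro s v
  obtain ⟨f, hf, rfl⟩ := exists_cl s
  obtain ⟨g, hg, rfl⟩ := exists_cl v
  have hdec : ∀ f : F, f ≠ 0 → ∃ a b : A, (1 : ℚ) ⊗ₜ[ℤ] cl f =
      (lgF (F := F) hu).c a - (lgF (F := F) hu).c b := by
    intro f hf
    obtain ⟨a, b, hb, rfl⟩ := IsFractionRing.div_surjective (A := A) f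
    have hb0 : b ≠ 0 := nonZeroDivisors.ne_zero hb
    have hb' : algebraMap A F b ≠ 0 := (map_ne_zero_iff _ hA).2 hb0
    have ha' : algebraMap A F a ≠ 0 := by
      intro h
      rw [h, zero_div] at hf
      exact hf rfl
    refine ⟨a, b, ?_⟩
    rw [cl_div ha' hb', TensorProduct.tmul_sub, lgF_c, lgF_c]
  obtain ⟨a, b, h1⟩ := hdec f hf
  obtain ⟨a', b', h2⟩ := hdec g hg
  have h3 := hT (cl f) (cl g)
  rw [← ext2_apply, ← hω, h1, h2] at h3
  simp only [map_sub, LinearMap.sub_apply, key] at h3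
  rw [← h3]
  ring

theorem spanDual1 : SpanDual F 1 := by
  intro Q hQ
  have hA : Function.Injective (algebraMap A F) := IsFractionRing.injective A F
  -- the bilinear map `(x, y) ↦ Q(x,y) + Q(y,x)`
  have hup0 : ∀ x z w : UV F, Function.update ![x, z] 0 w = ![w, z] := by
    intro x z w
    funext i
    fin_cases i <;> simp
  have hq1 : ∀ x y z : UV F, Q ![x + y, z] = Q ![x, z] + Q ![y, z] := by
    intro x y z
    have h := Q.map_update_add ![x, z] 0 x y
    rwa [hup0, hup0, hup0] at h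
  have hq2 : ∀ (r : ℤ) (x z : UV F), Q ![r • x, z] = r • Q ![x, z] := by
    intro r x z
    have h := Q.map_update_smul ![x, z] 0 r x
    rwa [hup0, hup0] at h
  have hup : ∀ x z w : UV F, Function.update ![x, z] 1 w = ![x, w] := by
    intro x z w
    funext i
    fin_cases i <;> simp
  have hq3 : ∀ x y z : UV F, Q ![z, x + y] = Q ![z, x] + Q ![z, y] := by
    intro x y z
    have h := Q.map_update_add ![z, x] 1 x y
    rwa [hup, hup, hup] at h
  have hq4 : ∀ (r : ℤ) (x z : UV F), Q ![z, r • x] = r • Q ![z, x] := by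
    intro r x z
    have h := Q.map_update_smul ![z, x] 1 r x
    rwa [hup, hup] at h
  let T : UV F →ₗ[ℤ] UV F →ₗ[ℤ] UV F →ₗ[ℤ] ℚ := LinearMap.mk₂ ℤ
    (fun x y => Q ![x, y] + Q ![y, x])
    (fun x y z => by rw [hq1, hq3]; abel)
    (fun r x z => by rw [hq2, hq4, smul_add])
    (fun x y z => by rw [hq1, hq3]; abel)
    (fun r x z => by rw [hq2, hq4, smul_add])
  have hT : ∀ x y, T x y = Q ![x, y] + Q ![y, x] := fun x y => rfl
  have hconst : ∀ x : UV F, (fun _ : Fin 2 => x) = ![x, x] := by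
    intro x
    funext i
    fin_cases i <;> rfl
  have hTd : ∀ v, T v v v = 0 := by
    intro v
    have h := diag_zero Q hQ v
    rw [hconst] at h
    rw [hT, LinearMap.add_apply, h, add_zero]
  have hTs : ∀ x y z, T x y z = T y x z := by
    intro x y z
    rw [hT, hT, add_comm]
  have hTp : ∀ x y, T x x y + 2 * T x y x = 0 := by
    intro x y
    have h1 := hTd (x + y)
    have h2 := hTd (x - y)
    simp only [map_add, map_sub, LinearMap.add_apply, LinearMap.sub_apply, hTd] at h1 h2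
    rw [hTs y x x, hTs y x y] at h1 h2
    linarith
  have hTc : ∀ x y z, T x y z + T y z x + T z x y = 0 := by
    intro x y z
    have h1 := hTp (x + z) y
    have h2 := hTp x y
    have h3 := hTp z y
    simp only [map_add, LinearMap.add_apply] at h1
    rw [hTs z x y, hTs z y x] at h1
    rw [hTs z x y]
    linarith
  set T' := ext3 T with hT'
  have hsym : Sym T' := by
    constructor
    · intro x y z
      refine tens_ind (fun x => T' x y z = T' y x z) (by simp) (fun a b ha hb => ?_)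
        (fun q a ha => ?_) (fun v => ?_) x
      · simp only [map_add, LinearMap.add_apply, ha, hb]
      · simp only [map_smul, LinearMap.smul_apply, ha]
      refine tens_ind (fun y => T' ((1 : ℚ) ⊗ₜ[ℤ] v) y z = T' y ((1 : ℚ) ⊗ₜ[ℤ] v) z) (by simp)
        (fun a b ha hb => ?_) (fun q a ha => ?_) (fun w => ?_) y
      · simp only [map_add, LinearMap.add_apply, ha, hb]
      · simp only [map_smul, LinearMap.smul_apply, ha]
      refine tens_ind (fun z => T' ((1 : ℚ) ⊗ₜ[ℤ] v) ((1 : ℚ) ⊗ₜ[ℤ] w) z =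
        T' ((1 : ℚ) ⊗ₜ[ℤ] w) ((1 : ℚ) ⊗ₜ[ℤ] v) z) (by simp)
        (fun a b ha hb => ?_) (fun q a ha => ?_) (fun u => ?_) z
      · simp only [map_add, ha, hb]
      · simp only [map_smul, ha]
      rw [hT', ext3_apply, ext3_apply, hTs]
    · intro x y z
      refine tens_ind (fun x => T' x y z + T' y z x + T' z x y = 0) (by simp)
        (fun a b ha hb => ?_) (fun q a ha => ?_) (fun v => ?_) x
      · simp only [map_add, LinearMap.add_apply]
        linarith
      · simp only [map_smul, LinearMap.smul_apply, smul_eq_mul]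
        rw [← mul_add, ← mul_add, ha, mul_zero]
      refine tens_ind (fun y => T' ((1 : ℚ) ⊗ₜ[ℤ] v) y z + T' y z ((1 : ℚ) ⊗ₜ[ℤ] v)
        + T' z ((1 : ℚ) ⊗ₜ[ℤ] v) y = 0) (by simp) (fun a b ha hb => ?_) (fun q a ha => ?_)
        (fun w => ?_) y
      · simp only [map_add, LinearMap.add_apply]
        linarith
      · simp only [map_smul, LinearMap.smul_apply, smul_eq_mul]
        rw [← mul_add, ← mul_add, ha, mul_zero]
      refine tens_ind (fun z => T' ((1 : ℚ) ⊗ₜ[ℤ] v) ((1 : ℚ) ⊗ₜ[ℤ] w) z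
        + T' ((1 : ℚ) ⊗ₜ[ℤ] w) z ((1 : ℚ) ⊗ₜ[ℤ] v) + T' z ((1 : ℚ) ⊗ₜ[ℤ] v) ((1 : ℚ) ⊗ₜ[ℤ] w) = 0)
        (by simp) (fun a b ha hb => ?_) (fun q a ha => ?_) (fun u => ?_) z
      · simp only [map_add, LinearMap.add_apply]
        linarith
      · simp only [map_smul, LinearMap.smul_apply, smul_eq_mul]
        rw [← mul_add, ← mul_add, ha, mul_zero]
      rw [hT', ext3_apply, ext3_apply, ext3_apply, hTc]
  have key := main3 L (lgF (F := F) hu) T' hsym (by
    intro a b e ha hb he hab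
    have ha' : algebraMap A F a ≠ 0 := (map_ne_zero_iff _ hA).2 ha
    have hb' : algebraMap A F b ≠ 0 := (map_ne_zero_iff _ hA).2 hb
    have he' : algebraMap A F e ≠ 0 := (map_ne_zero_iff _ hA).2 he
    rw [lgF_c, lgF_c, lgF_c, ← TensorProduct.tmul_sub, ← TensorProduct.tmul_sub,
      ← cl_div ha' he', ← cl_div hb' he', hT', ext3_apply, hT, LinearMap.add_apply, ← hconst]
    have h2 : 1 - algebraMap A F a / algebraMap A F e = algebraMap A F b / algebraMap A F e := by
      rw [← hab, map_add]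
      rw [← hab, map_add] at he'
      field_simp
      ring
    rw [← h2]
    have h4 := hQ (algebraMap A F a / algebraMap A F e) (div_ne_zero ha' he') (by
      intro h3
      rw [h3, sub_self] at h2
      exact div_ne_zero hb' he' h2.symm)
    rw [h4, add_zero])
  intro s v
  obtain ⟨f, hf, rfl⟩ := exists_cl s
  obtain ⟨g, hg, rfl⟩ := exists_cl v
  have hdec : ∀ f : F, f ≠ 0 → ∃ a b : A, (1 : ℚ) ⊗ₜ[ℤ] cl f =
      (lgF (F := F) hu).c a - (lgF (F := F) hu).c b := by
    intro f hf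
    obtain ⟨a, b, hb, rfl⟩ := IsFractionRing.div_surjective (A := A) f
    have hb0 : b ≠ 0 := nonZeroDivisors.ne_zero hb
    have hb' : algebraMap A F b ≠ 0 := (map_ne_zero_iff _ hA).2 hb0
    have ha' : algebraMap A F a ≠ 0 := by
      intro h
      rw [h, zero_div] at hf
      exact hf rfl
    refine ⟨a, b, ?_⟩
    rw [cl_div ha' hb', TensorProduct.tmul_sub, lgF_c, lgF_c]
  obtain ⟨a, b, h1⟩ := hdec f hf
  obtain ⟨a', b', h2⟩ := hdec g hg
  have h3 : T (cl f) (cl f) (cl g) = 0 := by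
    rw [← ext3_apply, ← hT', h1, h2]
    simp only [map_sub, LinearMap.sub_apply, key]
    ring
  rw [hT, LinearMap.add_apply, ← hconst] at h3
  linarith

end conv

end Pool.Agent.V8H63.W3
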