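import Pool.Agent.H39R2.Gon.E1
import Pool.Agent.H39R2.Gon.E2
import Pool.Agent.V8H63.GD.Key
import Pool.Agent.V8H63.W3.Conv

set_option autoImplicit false

/-!
# Consequences for the complexes
-/

namespace Pool.Agent.V8H63.W3

open scoped TensorProduct
open H39Gon H39Gon.E2

variable {F : Type} [Field F]

/-- functionals on `(B_2 ⊗ Λ^j)_ℚ` which kill the image of `B_3` and the products with the kernel
of `δ_2` -/
theorem step_e' (j : ℕ) (hsd : SpanDual F 1) (φ : TQ F 2 j →ₗ[ℚ] ℚ)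
    (hker : ∀ α, delta2 F α = 0 → toTheta φ α = 0)
    (hφ : ∀ (i : ℕ) (hi : j = i + 1) (x : F) (y : Fin i → UV F), x ≠ 0 →
      φ (tq F 2 j (some x) ((Fin.cons (cl x) y : Fin (i + 1) → UV F) ∘ Fin.cast hi)) = 0) :
    ∃ ψ : LQ F (j + 2) →ₗ[ℚ] ℚ, ∀ v, φ v = ψ (e1e F j v) := by
  obtain ⟨Ψ, hΨ, hev⟩ := GD.exists_form2 (toTheta φ) hker
  have hnone : ∀ y, φ (tq F 2 j none y) = 0 := by
    intro y
    rw [← toTheta_apply, hev, ev_none]
    rfl
  have hsome : ∀ x y, φ (tq F 2 j (some x) y) =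
      Ψ (cl (1 - x)) (cl x) (fun _ => cl x) y := by
    intro x y
    rw [← toTheta_apply, hev, ev_some]
  let Q : UV F →ₗ[ℤ] (UV F →ₗ[ℤ] (UV F [⋀^Fin j]→ₗ[ℤ] ℚ)) :=
    LinearMap.mk₂ ℤ (fun s v => Ψ v s Fin.elim0)
      (fun a b c => by simp) (fun a b c => by simp) (fun a b c => by simp)
      (fun a b c => by simp)
  have hQ : ∀ s v, Q s v = Ψ v s (fun _ => s) := by
    intro s v
    change Ψ v s Fin.elim0 = _
    congr 1
    exact Subsingleton.elim _ _
  obtain ⟨Θ, hΘ⟩ := koszul_last j Q (by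
      intro s
      rw [hQ, hΨ]
      rfl) (by
      intro i hi s v y
      subst hi
      have h1 := hsd (MultilinearMap.uncurryRight
        (M := fun _ : Fin (1 + 1) => UV F)
        ((flipTail y).compMultilinearMap (qOf Ψ))) (by
          intro f hf0 hf1
          change qOf Ψ (fun _ => cl f) (cl (1 - f)) (Fin.cons (cl f) y) = 0
          rw [qOf_apply, ← hsome]
          exact hφ i rfl f y hf0) s v
      have h2 : qOf Ψ (fun _ => s) v (Fin.cons s y) = 0 := h1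
      rw [qOf_apply] at h2
      rw [hQ]
      exact h2)
  refine ⟨ofAlt Θ, fun v => ?_⟩
  have h2 : φ = (ofAlt Θ) ∘ₗ (e1e F j) := by
    apply text
    intro x y
    rw [LinearMap.comp_apply]
    rcases x with _ | x
    · rw [hnone, e1e_apply, e1ev_none]
      simp
    · rw [hsome, e1e_apply, e1ev_some, e1Psi_apply, e1Psi2_apply, ofAlt_apply, hΘ, hQ]
  rw [h2]
  rfl

/-- the image of `(B_3 ⊗ Λ^j)_ℚ` -/
def SDec (F : Type) [Field F] (j : ℕ) : Set (TQ F 2 (j + 1)) :=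
  {v | ∃ (x : F) (y : Fin j → UV F), x ≠ 0 ∧ v = tq F 2 (j + 1) (some x) (Fin.cons (cl x) y)}

/-- the products of the kernel of `δ_2` with `Λ^j` -/
def SProd (F : Type) [Field F] (j : ℕ) : Set (TQ F 2 j) :=
  {v | ∃ (α : ZP F) (y : Fin j → UV F), delta2 F α = 0 ∧
    v = (1 : ℚ) ⊗ₜ[ℤ] ((R 2 F).mkQ α ⊗ₜ[ℤ] exteriorPower.ιMulti ℤ j y)}

theorem ker_e (hsd : SpanDual F 1) (j : ℕ) (u : TQ F 2 (j + 1)) (hu : e1e F (j + 1) u = 0) :
    u ∈ Submodule.span ℚ (SDec F j ∪ SProd F (j + 1)) := by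
  by_contra hn
  obtain ⟨φ, h1, h2⟩ := exists_dual_ne hn
  obtain ⟨ψ, hψ⟩ := step_e' (j + 1) hsd φ (by
    intro α hα
    ext y
    have h3 : toTheta φ α y =
        φ ((1 : ℚ) ⊗ₜ[ℤ] ((R 2 F).mkQ α ⊗ₜ[ℤ] exteriorPower.ιMulti ℤ (j + 1) y)) := rfl
    rw [h3]
    exact h1 _ (Submodule.subset_span (Or.inr ⟨α, y, hα, rfl⟩))) (by
    intro i hi x y hx
    obtain rfl : j = i := by omega
    exact h1 _ (Submodule.subset_span (Or.inl ⟨x, y, hx, rfl⟩)))
  apply h2
  rw [hψ, hu, map_zero]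

theorem e1e_some (j : ℕ) (x : F) (y : Fin j → UV F) :
    e1e F j (tq F 2 j (some x) y) = lq F (j + 2) (Fin.cons (cl (1 - x)) (Fin.cons (cl x) y)) := by
  rw [e1e_apply, e1ev_some, e1Psi_apply, e1Psi2_apply]

theorem e_dec (j : ℕ) (u : TQ F 2 (j + 1)) (hu : u ∈ Submodule.span ℚ (SDec F j ∪ SProd F (j + 1))) :
    e1e F (j + 1) u = 0 := by
  induction hu using Submodule.span_induction with
  | mem u hu =>
    rcases hu with ⟨x, y, hx, rfl⟩ | ⟨α, y, hα, rfl⟩
    · rw [e1e_some]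
      unfold lq
      have h1 : exteriorPower.ιMulti ℤ (j + 1 + 2)
          (Fin.cons (cl (1 - x)) (Fin.cons (cl x)
            (Fin.cons (cl x) y : Fin (j + 1) → UV F) :
              Fin (j + 1 + 1) → UV F)) = 0 :=
        AlternatingMap.map_eq_zero_of_eq _ _ (i := ⟨1, by omega⟩) (j := ⟨2, by omega⟩)
          (by rfl) (by simp [Fin.ext_iff])
      rw [h1, TensorProduct.tmul_zero]
    · have h1 : e1e F (j + 1) ((1 : ℚ) ⊗ₜ[ℤ] ((R 2 F).mkQ α ⊗ₜ[ℤ] exteriorPower.ιMulti ℤ (j + 1) y)) =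
          ev (e1Psi F (j + 1)) α (exteriorPower.ιMulti ℤ (j + 1) y) := by
        unfold e1e e1lift
        rw [LinearMap.liftBaseChange_tmul, one_smul]
        rfl
      have h2 : ev (e1Psi F (j + 1)) α = 0 :=
        TC2.ev_ker_delta2 (e1Psi F (j + 1)) (e1Psi_self F (j + 1)) α (LinearMap.mem_ker.2 hα)
      rw [h1, h2, LinearMap.zero_apply]
  | zero => rw [map_zero]
  | add a b _ _ ha hb => rw [map_add, ha, hb, add_zero]
  | smul q a _ ha => rw [map_smul, ha, smul_zero]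

theorem surj_e (hsd : SpanDual F 0) (j : ℕ) : Function.Surjective (e1e F j) := by
  apply surjective_of_dual
  intro χ hχ
  apply lext
  intro z
  rw [LinearMap.zero_apply, ← toAlt_apply]
  have h1 : ∀ (y : Fin j → UV F) (s v : UV F), toAlt χ (Fin.cons v (Fin.cons s y)) = 0 := by
    intro y s v
    have h2 := hsd (MultilinearMap.ofSubsingleton ℤ (UV F)
      (UV F →ₗ[ℤ] ℚ) (0 : Fin 1)
      (LinearMap.flip ((evalTail y) ∘ₗ (toAlt χ).curryLeft))) (by
        intro f hf0 hf1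
        change toAlt χ (Fin.cons (cl (1 - f)) (Fin.cons (cl f) y)) = 0
        rw [toAlt_apply, ← e1e_some j f y]
        exact hχ _) s v
    exact h2
  have h3 := h1 (Fin.tail (Fin.tail z)) (Fin.tail z 0) (z 0)
  rwa [Fin.cons_self_tail, Fin.cons_self_tail] at h3

end Pool.Agent.V8H63.W3
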