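import Pool.Agent.H39R2.GonP.Bridge
import Pool.Agent.TH358.GP.EvI
import Pool.Agent.V8H63.W3.Coh

set_option autoImplicit false

/-!
# The consequences, for the definitions of `GonP`
-/

namespace Pool.Agent.V8H63.W3

open scoped TensorProduct
open GonP

/-- the elements `({x}_2 ⊗ x ∧ y_1 ∧ ... ∧ y_j) ⊗ 1`, `x ≠ 0`, `x ≠ ∞`: these are the images of the
generators `({x}_3 ⊗ y_1 ∧ ... ∧ y_j) ⊗ 1` of `(B_3(F) ⊗ Λ^j F^*)_ℚ` (the generators with `x = 0` and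
`x = ∞` have image `0`) -/
def ImageB3 (F : Type) [Field F] (j : ℕ) : Set (TQ F 2 (j + 1)) :=
  {v | ∃ (x : F) (y : Fin j → UV F), x ≠ 0 ∧ v = tq 2 (j + 1) (some x) (Fin.cons (cl x) y)}

/-- the products `(ξ ⊗ y_1 ∧ ... ∧ y_j) ⊗ 1`, where `ξ ∈ B_2(F)` is the class of some
`α ∈ ℤ[P^1_F]` with `δ_2 α = 0` -/
def ProdH1 (F : Type) [Field F] (j : ℕ) : Set (TQ F 2 j) :=
  {v | ∃ (α : ZP F) (y : Fin j → UV F), delta2 F α = 0 ∧
    v = toRat (tm (toQuo (R 2 F) α) (wedge y))}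

variable {F : Type} [Field F]

/-- the last differentials -/
noncomputable def eG (F : Type) [Field F] (j : ℕ) : TQ F 2 j → LQ F (j + 2) :=
  fun x => (eLQ F (j + 2)).symm (H39Gon.e1e F j (eT F 0 j x))

theorem eG_isE (j : ℕ) : IsE j (eG F j) := by
  refine ⟨⟨fun x y => ?_, fun c x => ?_⟩, fun y => ?_, fun y => ?_, fun y => ?_,
    fun x y hx hx1 => ?_⟩
  · unfold eG
    rw [map_add, map_add, map_add]
  · unfold eG
    rw [map_smul, map_smul, map_smul]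
  · unfold eG
    rw [show eT F 0 j (tq 2 j none y) = H39Gon.tq F 2 j none y from
      eT_tq 0 j none y, H39Gon.e1e_apply, H39Gon.e1ev_none, LinearMap.zero_apply, map_zero]
  · unfold eG
    rw [show eT F 0 j (tq 2 j (some 0) y) = H39Gon.tq F 2 j (some 0) y from
      eT_tq 0 j (some 0) y, e1e_some, H39Gon.e1cl_zero]
    unfold H39Gon.lq
    rw [(exteriorPower.ιMulti ℤ (j + 2)).map_coord_zero (i := 1) (by simp),
      TensorProduct.tmul_zero, map_zero]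
  · unfold eG
    rw [show eT F 0 j (tq 2 j (some 1) y) = H39Gon.tq F 2 j (some 1) y from
      eT_tq 0 j (some 1) y, e1e_some, H39Gon.e1cl_one]
    unfold H39Gon.lq
    rw [(exteriorPower.ιMulti ℤ (j + 2)).map_coord_zero (i := 1) (by simp),
      TensorProduct.tmul_zero, map_zero]
  · unfold eG
    rw [show eT F 0 j (tq 2 j (some x) y) = H39Gon.tq F 2 j (some x) y from
      eT_tq 0 j (some x) y, e1e_some]
    exact eLQ_symm_lq (j + 2) _

theorem isE_unique (e e' : ∀ j, TQ F 2 j → LQ F (j + 2)) (h : ∀ j, IsE j (e j))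
    (h' : ∀ j, IsE j (e' j)) : e' = e := by
  funext j
  have a := h j
  have b := h' j
  apply text_P 0 j _ _ b.1 a.1
  intro x y
  rcases x with _ | x
  · exact (b.2.1 y).trans (a.2.1 y).symm
  · by_cases hx : x = 0
    · subst hx; exact (b.2.2.1 y).trans (a.2.2.1 y).symm
    · by_cases hx1 : x = 1
      · subst hx1; exact (b.2.2.2.1 y).trans (a.2.2.2.1 y).symm
      · exact (b.2.2.2.2 x y hx hx1).trans (a.2.2.2.2 x y hx hx1).symm

theorem eT_prod (j : ℕ) (α : ZP F) (y : Fin j → UV F) :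
    eT F 0 j (toRat (tm (toQuo (R 2 F) α) (wedge y))) =
      (1 : ℚ) ⊗ₜ[ℤ] ((H39Gon.R 2 F).mkQ α ⊗ₜ[ℤ] exteriorPower.ιMulti ℤ j y) := by
  rw [← eL_wedge]
  rfl

theorem delta2_zero_iff (α : ZP F) : delta2 F α = 0 ↔ H39Gon.delta2 F α = 0 := by
  rw [← delta2_eq]
  simp

theorem span_iff (j : ℕ) (u : TQ F 2 (j + 1)) :
    u ∈ Submodule.span ℚ (ImageB3 F j ∪ ProdH1 F (j + 1)) ↔
      eT F 0 (j + 1) u ∈ Submodule.span ℚ (SDec F j ∪ SProd F (j + 1)) := by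
  have h : (SDec F j ∪ SProd F (j + 1)) = (eT F 0 (j + 1)) '' (ImageB3 F j ∪ ProdH1 F (j + 1)) := by
    ext v
    constructor
    · rintro (⟨x, y, hx, rfl⟩ | ⟨α, y, hα, rfl⟩)
      · exact ⟨_, Or.inl ⟨x, y, hx, rfl⟩, eT_tq 0 (j + 1) _ _⟩
      · exact ⟨_, Or.inr ⟨α, y, (delta2_zero_iff α).2 hα, rfl⟩, eT_prod (j + 1) α y⟩
    · rintro ⟨_, ⟨x, y, hx, rfl⟩ | ⟨α, y, hα, rfl⟩, rfl⟩
      · exact Or.inl ⟨x, y, hx, eT_tq 0 (j + 1) _ _⟩
      · exact Or.inr ⟨α, y, (delta2_zero_iff α).1 hα, eT_prod (j + 1) α y⟩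
  rw [h]
  have h2 : Submodule.span ℚ ((eT F 0 (j + 1)) '' (ImageB3 F j ∪ ProdH1 F (j + 1))) =
      (Submodule.span ℚ (ImageB3 F j ∪ ProdH1 F (j + 1))).map (eT F 0 (j + 1)).toLinearMap :=
    (Submodule.map_span (eT F 0 (j + 1)).toLinearMap _).symm
  rw [h2]
  constructor
  · intro hu
    exact ⟨u, hu, rfl⟩
  · rintro ⟨w, hw, hwu⟩
    rwa [← (eT F 0 (j + 1)).injective hwu]

theorem eG_ker (hsd : H39Gon.SpanDual F 1) (j : ℕ) (u : TQ F 2 (j + 1)) :
    eG F (j + 1) u = 0 ↔ u ∈ Submodule.span ℚ (ImageB3 F j ∪ ProdH1 F (j + 1)) := by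
  rw [span_iff]
  unfold eG
  rw [LinearEquiv.map_eq_zero_iff]
  exact ⟨fun h => ker_e hsd j _ h, fun h => e_dec j _ h⟩

theorem eG_surj (hsd : H39Gon.SpanDual F 0) (j : ℕ) : Function.Surjective (eG F j) :=
  (eLQ F (j + 2)).symm.surjective.comp ((surj_e hsd j).comp (eT F 0 j).surjective)

/-- products with `H^1(Γ(F,2) ⊗ ℚ) = 0` vanish -/
theorem prod_zero_of_inj (h : Function.Injective (eG F 0)) (j : ℕ) (v : TQ F 2 j)
    (hv : v ∈ ProdH1 F j) : v = 0 := by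
  obtain ⟨α, y, hα, rfl⟩ := hv
  have h0 : toRat (tm (toQuo (R 2 F) α) (wedge (Fin.elim0 : Fin 0 → UV F))) = (0 : TQ F 2 0) := by
    apply h
    have h1 : eG F 0 0 = 0 := by
      unfold eG
      rw [map_zero, map_zero, map_zero]
    rw [h1]
    unfold eG
    rw [eT_prod, LinearEquiv.map_eq_zero_iff]
    have h1 : H39Gon.e1e F 0 ((1 : ℚ) ⊗ₜ[ℤ] ((H39Gon.R 2 F).mkQ α ⊗ₜ[ℤ]
        exteriorPower.ιMulti ℤ 0 Fin.elim0)) =
        H39Gon.ev (H39Gon.e1Psi F 0) α (exteriorPower.ιMulti ℤ 0 Fin.elim0) := by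
      unfold H39Gon.e1e H39Gon.e1lift
      rw [LinearMap.liftBaseChange_tmul, one_smul]
      rfl
    have h2 : H39Gon.ev (H39Gon.e1Psi F 0) α = 0 :=
      H39Gon.TC2.ev_ker_delta2 (H39Gon.e1Psi F 0) (H39Gon.e1Psi_self F 0) α
        (LinearMap.mem_ker.2 ((delta2_zero_iff α).1 hα))
    rw [h1, h2, LinearMap.zero_apply]
  have h3 := congrArg (eT F 0 0) h0
  rw [eT_prod, map_zero] at h3
  let L : (⋀[ℤ]^0 (UV F)) →ₗ[ℤ] (⋀[ℤ]^j (UV F)) :=
    exteriorPower.alternatingMapLinearEquiv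
      (AlternatingMap.constOfIsEmpty ℤ (UV F) (Fin 0) (exteriorPower.ιMulti ℤ j y))
  have hL : L (exteriorPower.ιMulti ℤ 0 Fin.elim0) = exteriorPower.ιMulti ℤ j y := by
    simp only [L, exteriorPower.alternatingMapLinearEquiv_apply_ιMulti]
    rfl
  let G : (ℚ ⊗[ℤ] (H39Gon.B 2 F ⊗[ℤ] (⋀[ℤ]^0 (UV F)))) →ₗ[ℤ]
      (ℚ ⊗[ℤ] (H39Gon.B 2 F ⊗[ℤ] (⋀[ℤ]^j (UV F)))) :=
    TensorProduct.map LinearMap.id (TensorProduct.map LinearMap.id L)
  have h4 := congrArg G h3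
  have h5 : G ((1 : ℚ) ⊗ₜ[ℤ] ((H39Gon.R 2 F).mkQ α ⊗ₜ[ℤ] exteriorPower.ιMulti ℤ 0 Fin.elim0)) =
      (1 : ℚ) ⊗ₜ[ℤ] ((H39Gon.R 2 F).mkQ α ⊗ₜ[ℤ] L (exteriorPower.ιMulti ℤ 0 Fin.elim0)) := rfl
  apply (eT F 0 j).injective
  rw [eT_prod, map_zero, ← hL, ← h5]
  exact h4.trans (map_zero G)

theorem eG_ker_of_inj (hsd : H39Gon.SpanDual F 1) (h : Function.Injective (eG F 0)) (j : ℕ)
    (u : TQ F 2 (j + 1)) (hu : eG F (j + 1) u = 0) : u ∈ Submodule.span ℚ (ImageB3 F j) := by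
  rw [eG_ker hsd] at hu
  have h1 : Submodule.span ℚ (ImageB3 F j ∪ ProdH1 F (j + 1)) ≤ Submodule.span ℚ (ImageB3 F j) := by
    rw [Submodule.span_le]
    rintro v (hv | hv)
    · exact Submodule.subset_span hv
    · rw [prod_zero_of_inj h (j + 1) v hv]
      exact Submodule.zero_mem _
  exact h1 hu

/-! ### the symbols -/

/-- multilinear maps in two variables -/
def mk2 {V W : Type} [AddCommGroup V] [AddCommGroup W] (b : V →ₗ[ℤ] V →ₗ[ℤ] W) :
    MultilinearMap ℤ (fun _ : Fin 2 => V) W where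
  toFun v := b (v 0) (v 1)
  map_update_add' v i x y := by
    fin_cases i
    · simp [Function.update_of_ne]
    · simp [Function.update_of_ne]
  map_update_smul' v i x y := by
    fin_cases i
    · simp [Function.update_of_ne]
    · simp [Function.update_of_ne]

theorem symbols_span (hsd : H39Gon.SpanDual F 1) (a b : UV F) :
    toRat (tm (tm a a) b) ∈ Submodule.span ℚ {v : TensRat (Tens (Tens (UV F) (UV F)) (UV F)) |
      ∃ f : F, f ≠ 0 ∧ f ≠ 1 ∧ v = toRat (tm (tm (cl f) (cl f)) (cl (1 - f)))} := by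
  by_contra hn
  obtain ⟨φ, h1, h2⟩ := H39Gon.E2.exists_dual_ne hn
  let φ' : (UV F ⊗[ℤ] UV F) ⊗[ℤ] UV F →ₗ[ℤ] ℚ := AddMonoidHom.toIntLinearMap
    { toFun := fun z => φ (toRat (A := Tens (Tens (UV F) (UV F)) (UV F)) z)
      map_zero' := by
        have : (toRat (A := Tens (Tens (UV F) (UV F)) (UV F)) 0) = 0 := TensorProduct.tmul_zero _ _
        exact (congrArg φ this).trans (map_zero φ)
      map_add' := fun x y => by
        have : (toRat (A := Tens (Tens (UV F) (UV F)) (UV F)) (x + y)) =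
            toRat (A := Tens (Tens (UV F) (UV F)) (UV F)) x +
              toRat (A := Tens (Tens (UV F) (UV F)) (UV F)) y := TensorProduct.tmul_add _ _ _
        exact (congrArg φ this).trans (map_add φ _ _) }
  have hφ' : ∀ x y z : UV F, φ' ((x ⊗ₜ[ℤ] y) ⊗ₜ[ℤ] z) = φ (toRat (tm (tm x y) z)) := fun _ _ _ => rfl
  have h3 := hsd (mk2 (TensorProduct.curry (TensorProduct.curry φ'))) (by
    intro f hf0 hf1
    change φ' ((cl f ⊗ₜ[ℤ] cl f) ⊗ₜ[ℤ] cl (1 - f)) = 0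
    rw [hφ']
    exact h1 _ (Submodule.subset_span ⟨f, hf0, hf1, rfl⟩)) a b
  change φ' ((a ⊗ₜ[ℤ] a) ⊗ₜ[ℤ] b) = 0 at h3
  rw [hφ'] at h3
  exact h2 h3

/-! ### fields with vanishing first cohomology -/

theorem prod_zero (hF : Pool.Agent.TH358.GP.EvS F) (j : ℕ) (v : TQ F 2 j) (hv : v ∈ ProdH1 F j) :
    v = 0 := by
  obtain ⟨α, y, hα, rfl⟩ := hv
  obtain ⟨N, hN, h⟩ := Pool.Agent.TH358.GP.tors_of_ev hF 0 α (fun Ψ hΨ =>
    H39Gon.TC2.ev_ker_delta2 Ψ hΨ α (LinearMap.mem_ker.2 ((delta2_zero_iff α).1 hα)))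
  apply (eT F 0 j).injective
  rw [eT_prod, map_zero]
  have h1 : (N : ℕ) • (H39Gon.R 2 F).mkQ α = 0 := by
    rw [← map_nsmul, Submodule.mkQ_apply, Submodule.Quotient.mk_eq_zero]
    exact h
  let g : H39Gon.B 2 F →ₗ[ℤ] H39Gon.TQ F 2 j :=
    (TensorProduct.mk ℤ ℚ (H39Gon.B 2 F ⊗[ℤ] (⋀[ℤ]^j (UV F))) 1) ∘ₗ
      ((TensorProduct.mk ℤ (H39Gon.B 2 F) (⋀[ℤ]^j (UV F))).flip (exteriorPower.ιMulti ℤ j y))
  have h2 : (N : ℚ) • ((1 : ℚ) ⊗ₜ[ℤ] ((H39Gon.R 2 F).mkQ α ⊗ₜ[ℤ] exteriorPower.ιMulti ℤ j y)) =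
      0 := by
    rw [Nat.cast_smul_eq_nsmul]
    have h3 := map_nsmul g N ((H39Gon.R 2 F).mkQ α)
    rw [h1, map_zero] at h3
    exact h3.symm
  exact (smul_eq_zero.1 h2).resolve_left (by exact_mod_cast hN.ne')

theorem main_D (hF : Pool.Agent.TH358.GP.EvS F) (h0 : H39Gon.SpanDual F 0)
    (h1 : H39Gon.SpanDual F 1) :
    ∃ D : Differentials F, (∀ D' : Differentials F, D' = D) ∧
      (∀ m, Function.Injective (D.d m 0)) ∧ Function.Injective (D.e 0) ∧
      (∀ j, Function.Exact (D.d 0 j) (D.e (j + 1))) ∧ ∀ j, Function.Surjective (D.e j) := by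
  obtain ⟨⟨D, hD, hi, hi'⟩, -⟩ := Pool.Agent.TH358.GP.main_class F hF
  have he : D.e = eG F := isE_unique (eG F) D.e eG_isE D.e_spec
  refine ⟨D, hD, hi, hi', fun j => ?_, fun j => ?_⟩
  · have hlin := (D.d_spec 0 j).1
    intro u
    rw [he, eG_ker h1]
    constructor
    · intro hu
      induction hu using Submodule.span_induction with
      | mem u hu =>
        rcases hu with ⟨x, y, hx, rfl⟩ | hu
        · exact ⟨tq 3 j (some x) y, (D.d_spec 0 j).2.2.2 x y hx⟩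
        · rw [prod_zero hF (j + 1) u hu]
          exact ⟨0, hlin.map_zero⟩
      | zero => exact ⟨0, hlin.map_zero⟩
      | add a b _ _ ha hb =>
        obtain ⟨a', ha'⟩ := ha
        obtain ⟨b', hb'⟩ := hb
        exact ⟨a' + b', by rw [hlin.map_add, ha', hb']⟩
      | smul q a _ ha =>
        obtain ⟨a', ha'⟩ := ha
        exact ⟨q • a', by rw [hlin.map_smul, ha']⟩
    · rintro ⟨w, rfl⟩
      -- `d` maps into the span
      have key : ∀ w : TQ F 3 j, D.d 0 j w ∈ Submodule.span ℚ (ImageB3 F j ∪ ProdH1 F (j + 1)) := by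
        intro w
        let dl : TQ F 3 j →ₗ[ℚ] TQ F 2 (j + 1) := hlin.mk' _
        have h3 : ((Submodule.span ℚ (ImageB3 F j ∪ ProdH1 F (j + 1))).mkQ ∘ₗ dl) = 0 := by
          have h4 := text_P (F := F) 1 j
            ((Submodule.span ℚ (ImageB3 F j ∪ ProdH1 F (j + 1))).mkQ ∘ₗ dl) (fun _ => 0)
            (LinearMap.isLinear _) (by constructor <;> intros <;> simp) (by
              intro x y
              rw [LinearMap.comp_apply, Submodule.mkQ_apply, Submodule.Quotient.mk_eq_zero]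
              change D.d 0 j (tq 3 j x y) ∈ _
              rcases x with _ | x
              · rw [(D.d_spec 0 j).2.1 y]
                exact Submodule.zero_mem _
              · by_cases hx : x = 0
                · subst hx
                  rw [(D.d_spec 0 j).2.2.1 y]
                  exact Submodule.zero_mem _
                · rw [(D.d_spec 0 j).2.2.2 x y hx]
                  exact Submodule.subset_span (Or.inl ⟨x, y, hx, rfl⟩))
          ext z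
          exact congrFun h4 z
        have h5 := LinearMap.congr_fun h3 w
        rw [LinearMap.comp_apply, Submodule.mkQ_apply, LinearMap.zero_apply,
          Submodule.Quotient.mk_eq_zero] at h5
        exact h5
      exact key w
  · rw [he]
    exact eG_surj h0 j

end Pool.Agent.V8H63.W3
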