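import Mathlib

set_option autoImplicit false

/-!
# Auxiliary lemmas for weight three
-/

namespace Pool.Agent.V8H63.W3

/-- a homomorphism from a torsion group to `ℚ` vanishes -/
theorem hom_zero {G : Type} [CommGroup G] (hG : ∀ h : G, ∃ N : ℕ, 0 < N ∧ h ^ N = 1) (φ : G → ℚ)
    (h : ∀ x y, φ (x * y) = φ x + φ y) (x : G) : φ x = 0 := by
  obtain ⟨N, hN, hx⟩ := hG x
  have h1 : φ 1 = 0 := by
    have := h 1 1
    rw [mul_one] at this
    linarith
  have h2 : ∀ n : ℕ, φ (x ^ n) = n * φ x := by
    intro n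
    induction n with
    | zero => simp [h1]
    | succ n ih => rw [pow_succ, h, ih]; push_cast; ring
  have h3 := h2 N
  rw [hx, h1] at h3
  have h4 : (N : ℚ) ≠ 0 := by exact_mod_cast hN.ne'
  exact (mul_eq_zero.1 h3.symm).resolve_left h4

/-- the quadratic form argument -/
theorem partA {G : Type} [CommGroup G] (hG : ∀ h : G, ∃ N : ℕ, 0 < N ∧ h ^ N = 1)
    {M : Type} [AddCommGroup M] [Module ℚ M] (B : M →ₗ[ℚ] M →ₗ[ℚ] ℚ)
    (hs : ∀ x y, B x y = B y x) (e : G → M) (he : e 1 = 0)
    (h : ∀ x y z w : G, x * y = z * w →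
      B (e x + e y - e z - e w) (e x + e y - e z - e w) = 0) (x y : G) : B (e x) (e y) = 0 := by
  have key : ∀ g y : G, B (e (y * g) - e y) (e (y * g) - e y) = 0 := by
    intro g
    obtain ⟨N, hN, hg⟩ := hG g
    set v : G → M := fun x => e (x * g) - e x with hv
    have hxy : ∀ x y, B (v x) (v y) = (B (v x) (v x) + B (v y) (v y)) / 2 := by
      intro x y
      have h1 := h (y * g) x y (x * g) (by rw [mul_assoc, mul_comm g x])
      have h2 : e (y * g) + e x - e y - e (x * g) = v y - v x := by simp only [hv]; abel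
      rw [h2] at h1
      simp only [map_sub, LinearMap.sub_apply] at h1
      rw [hs (v y) (v x)] at h1
      linarith
    have hsum : ∀ x, ∑ i ∈ Finset.range N, v (x * g ^ i) = 0 := by
      intro x
      have : ∀ n : ℕ, ∑ i ∈ Finset.range n, v (x * g ^ i) = e (x * g ^ n) - e x := by
        intro n
        induction n with
        | zero => simp
        | succ n ih =>
          rw [Finset.sum_range_succ, ih]
          simp only [hv, pow_succ, mul_assoc]
          abel
      rw [this, hg, mul_one, sub_self]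
    have hq : ∀ x y, (∑ i ∈ Finset.range N, B (v (x * g ^ i)) (v (x * g ^ i)))
        + N * B (v y) (v y) = 0 := by
      intro x y
      have h1 : B (∑ i ∈ Finset.range N, v (x * g ^ i)) (v y) = 0 := by
        rw [hsum, map_zero, LinearMap.zero_apply]
      rw [map_sum, LinearMap.sum_apply, Finset.sum_congr rfl (fun i _ => hxy _ _),
        ← Finset.sum_div, Finset.sum_add_distrib, Finset.sum_const, Finset.card_range,
        nsmul_eq_mul] at h1
      linarith
    intro y
    have hNq : (N : ℚ) ≠ 0 := by exact_mod_cast hN.ne'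
    have hconst : ∀ x, B (v x) (v x) = B (v y) (v y) := by
      intro x
      have h1 := hq y x
      have h2 := hq y y
      have : (N : ℚ) * B (v x) (v x) = N * B (v y) (v y) := by linarith
      exact mul_left_cancel₀ hNq this
    have h1 := hq y y
    rw [Finset.sum_congr rfl (fun i _ => hconst _), Finset.sum_const, Finset.card_range,
      nsmul_eq_mul] at h1
    have h2 : (N : ℚ) * B (v y) (v y) = 0 := by linarith
    exact (mul_eq_zero.1 h2).resolve_left hNq
  have h1 : ∀ x y, B (e y - e x) (e y - e x) = 0 := by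
    intro x y
    have := key (x⁻¹ * y) x
    rwa [mul_inv_cancel_left] at this
  have h2 : ∀ y, B (e y) (e y) = 0 := by
    intro y
    have := h1 1 y
    rwa [he, sub_zero] at this
  have h3 := h1 x y
  simp only [map_sub, LinearMap.sub_apply] at h3
  rw [h2, h2, hs (e y) (e x)] at h3
  linarith

/-- functions on a field algebraic over a finite field which satisfy the five-term relation of the
dilogarithm vanish -/
theorem fiveTerm_zero {κ : Type} [Field κ] (hκ : ∀ r : κ, ∃ K : Subfield κ, Finite K ∧ r ∈ K)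
    (g : κ → ℚ) (g0 : g 0 = 0) (g1 : g 1 = 0) (hinv : ∀ r, g r⁻¹ = - g r)
    (hsub : ∀ r, g (1 - r) = - g r)
    (h5 : ∀ r t, r ≠ 0 → r ≠ 1 → t ≠ 0 → t ≠ 1 → r ≠ t →
      g r - g t + g (t / r) - g ((t - 1) / (r - 1)) = g (r * (t - 1) / (t - r))) (r : κ) :
    g r = 0 := by
  classical
  by_cases hr0 : r = 0
  · rw [hr0, g0]
  by_cases hr1 : r = 1
  · rw [hr1, g1]
  obtain ⟨K, hK, hrK⟩ := hκ r
  have := Fintype.ofFinite K
  have h5' : ∀ t : κ, g r - g t + g (t / r) - g ((t - 1) / (r - 1)) =
      g (r * (t - 1) / (t - r)) := by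
    intro t
    by_cases ht0 : t = 0
    · subst ht0
      have h1 : g ((0 - 1) / (r - 1)) = g r := by
        have h2 : (0 - 1) / (r - 1) = (1 - r)⁻¹ := by
          have : (1 : κ) - r ≠ 0 := sub_ne_zero.2 (Ne.symm hr1)
          have h3 : r - 1 ≠ 0 := sub_ne_zero.2 hr1
          field_simp
          ring
        rw [h2, hinv, hsub, neg_neg]
      have h2 : r * (0 - 1) / (0 - r) = 1 := by
        rw [zero_sub, zero_sub, mul_neg, mul_one, div_self (neg_ne_zero.2 hr0)]
      rw [g0, zero_div, g0, h1, h2, g1]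
      ring
    by_cases ht1 : t = 1
    · subst ht1
      rw [g1, sub_self, zero_div, mul_zero, zero_div, g0, one_div, hinv]
      ring
    by_cases htr : t = r
    · subst htr
      rw [div_self hr0, div_self (sub_ne_zero.2 hr1), g1, sub_self t, div_zero, g0]
      ring
    exact h5 r t hr0 hr1 ht0 ht1 (Ne.symm htr)
  -- sums over the finite subfield
  set r' : K := ⟨r, hrK⟩ with hr'
  have hr'0 : r' ≠ 0 := fun h => hr0 (congrArg Subtype.val h)
  have hr'1 : r' ≠ 1 := fun h => hr1 (congrArg Subtype.val h)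
  set G : K → ℚ := fun t => g (t : κ) with hG
  have e5 : ∀ t : K, G r' - G t + G (t / r') - G ((t - 1) / (r' - 1)) =
      G (r' * (t - 1) / (t - r')) := fun t => h5' t
  have s0 : ∑ t : K, G t = 0 := by
    have h1 : ∑ t : K, G (1 - t) = ∑ t : K, G t :=
      Fintype.sum_equiv (Equiv.subLeft (1 : K)) _ _ (fun t => rfl)
    have h2 : ∑ t : K, G (1 - t) = - ∑ t : K, G t := by
      rw [← Finset.sum_neg_distrib]
      exact Finset.sum_congr rfl fun t _ => hsub t
    linarith
  have s1 : ∑ t : K, G (t / r') = 0 := by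
    rw [← s0]
    exact Fintype.sum_equiv (Equiv.divRight₀ r' hr'0) _ _ (fun t => rfl)
  have s2 : ∑ t : K, G ((t - 1) / (r' - 1)) = 0 := by
    rw [← s0]
    exact Fintype.sum_equiv ((Equiv.subRight (1 : K)).trans
      (Equiv.divRight₀ (r' - 1) (sub_ne_zero.2 hr'1))) _ _ (fun t => rfl)
  have s3 : ∑ t : K, G (r' * (t - 1) / (t - r')) = - G r' := by
    have h1 : ∑ t : K, G (r' * (t - 1) / (t - r')) =
        ∑ t ∈ Finset.univ.erase r', G (r' * (t - 1) / (t - r')) := by
      rw [← Finset.add_sum_erase _ _ (Finset.mem_univ r'), sub_self, div_zero]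
      have : G 0 = 0 := g0
      rw [this, zero_add]
    have h2 : ∑ t ∈ Finset.univ.erase r', G (r' * (t - 1) / (t - r')) =
        ∑ t ∈ Finset.univ.erase r', G t := by
      have hne : ∀ t : K, t ≠ r' → r' * (t - 1) / (t - r') ≠ r' := by
        intro t ht h3
        have h4 : t - r' ≠ 0 := sub_ne_zero.2 ht
        rw [div_eq_iff h4] at h3
        have h5 := mul_left_cancel₀ hr'0 h3
        have h6 : (1 : K) = r' := sub_right_injective h5
        exact hr'1 h6.symm
      have hinvol : ∀ t : K, t ≠ r' →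
          r' * (r' * (t - 1) / (t - r') - 1) / (r' * (t - 1) / (t - r') - r') = t := by
        intro t ht
        have h4 : t - r' ≠ 0 := sub_ne_zero.2 ht
        have h5 : r' * (t - 1) / (t - r') - r' ≠ 0 := sub_ne_zero.2 (hne t ht)
        rw [div_eq_iff h5]
        field_simp
        ring
      refine Finset.sum_nbij' (fun t => r' * (t - 1) / (t - r')) (fun t => r' * (t - 1) / (t - r'))
        ?_ ?_ ?_ ?_ ?_
      · intro t ht
        rw [Finset.mem_erase] at ht ⊢
        exact ⟨hne t ht.1, Finset.mem_univ _⟩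
      · intro t ht
        rw [Finset.mem_erase] at ht ⊢
        exact ⟨hne t ht.1, Finset.mem_univ _⟩
      · intro t ht
        exact hinvol t (Finset.mem_erase.1 ht).1
      · intro t ht
        exact hinvol t (Finset.mem_erase.1 ht).1
      · intro t _
        rfl
    rw [h1, h2]
    have h3 := Finset.add_sum_erase Finset.univ G (Finset.mem_univ r')
    rw [s0] at h3
    linarith
  have s4 : ∑ t : K, (G r' - G t + G (t / r') - G ((t - 1) / (r' - 1))) =
      ∑ t : K, G (r' * (t - 1) / (t - r')) := Finset.sum_congr rfl fun t _ => e5 t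
  rw [Finset.sum_sub_distrib, Finset.sum_add_distrib, Finset.sum_sub_distrib, s0, s1, s2, s3,
    Finset.sum_const, Finset.card_univ, nsmul_eq_mul] at s4
  have s5 : ((Fintype.card K : ℚ) + 1) * G r' = 0 := by linarith
  have s6 : ((Fintype.card K : ℚ) + 1) ≠ 0 := by positivity
  exact (mul_eq_zero.1 s5).resolve_left s6

/-- `ω(x,y) + ω(y,z) + ω(z,x)` -/
def tt {M : Type} [AddCommGroup M] [Module ℚ M] (ω : M →ₗ[ℚ] M →ₗ[ℚ] ℚ) (x y z : M) : ℚ :=
  ω x y + ω y z + ω z x

section tt

variable {M : Type} [AddCommGroup M] [Module ℚ M] (ω : M →ₗ[ℚ] M →ₗ[ℚ] ℚ)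

theorem alt_swap (hω : ∀ x, ω x x = 0) (x y : M) : ω x y = - ω y x := by
  have h := hω (x + y)
  simp only [map_add, LinearMap.add_apply, hω] at h
  linarith

theorem tt_five (hω : ∀ x, ω x x = 0) (p q r s u v : M) :
    tt ω p q r - tt ω p u v + tt ω r s v - tt ω q s u = tt ω (p + s) (v + q) (r + u) := by
  unfold tt
  simp only [map_add, LinearMap.add_apply]
  have a1 := alt_swap ω hω p u
  have a2 := alt_swap ω hω v u
  have a3 := alt_swap ω hω v p
  have a4 := alt_swap ω hω q s
  have a5 := alt_swap ω hω s u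
  have a6 := alt_swap ω hω u q
  linarith

theorem tt_shift (hω : ∀ x, ω x x = 0) (x y z l : M) :
    tt ω (x + l) (y + l) (z + l) = tt ω x y z := by
  unfold tt
  simp only [map_add, LinearMap.add_apply, hω]
  have a1 := alt_swap ω hω l x
  have a2 := alt_swap ω hω l y
  have a3 := alt_swap ω hω l z
  linarith

theorem tt_rev (hω : ∀ x, ω x x = 0) (x y z : M) : tt ω z y x = - tt ω x y z := by
  unfold tt
  have a1 := alt_swap ω hω z y
  have a2 := alt_swap ω hω y x
  have a3 := alt_swap ω hω x z
  linarith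

end tt

end Pool.Agent.V8H63.W3
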