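import Pool.Agent.V8H63.W3.Base

set_option autoImplicit false
set_option linter.unusedSectionVars false

/-!
# Euclidean rings with finite residue fields and small representatives
-/

namespace Pool.Agent.V8H63.W3

/-- A ring `A` with sets `S n` of small elements and sets `Pr n` of primes, to which the Euclidean
arguments below apply. -/
structure Lev (A : Type) [CommRing A] where
  S : ℕ → Set A
  Pr : ℕ → Set A
  base : ∀ x ∈ S 0, x = 0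
  mono : ∀ n, S n ⊆ S (n + 1)
  ex : ∀ a : A, ∃ n, a ∈ S n ∨ -a ∈ S n
  zero : ∀ n P, P ∈ Pr n → (0 : A) ∈ S n
  one : ∀ n P, P ∈ Pr n → (1 : A) ∈ S n
  sub : ∀ n x y, x ∈ S n → y ∈ S n → x - y ∈ S n ∨ -(x - y) ∈ S n
  pred : ∀ n P x, P ∈ Pr n → x ∈ S n → x ≠ 0 → x - 1 ∈ S n
  inj : ∀ n P x, P ∈ Pr n → x ∈ S n → P ∣ x → x = 0
  prime : ∀ n P, P ∈ Pr n → Prime P
  mem : ∀ n P, P ∈ Pr n → P ∈ S (n + 1)
  quot : ∀ n P x y z w k, P ∈ Pr n → x ∈ S n → y ∈ S n → z ∈ S n → w ∈ S n →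
    x * y - z * w = k * P → k ∈ S n ∨ -k ∈ S n
  quot' : ∀ n P x y z k, P ∈ Pr n → x ∈ S n → y ∈ S n → z ∈ S n →
    x * y + z = k * P → k ∈ S n ∨ -k ∈ S n
  diff : ∀ n P P', P ∈ Pr n → P' ∈ Pr n → P' - P ∈ S n ∨ -(P' - P) ∈ S n
  quot2 : ∀ n P P' x y z k, P ∈ Pr n → P' ∈ Pr n → P ≠ P' → x ∈ S n → y ∈ S n → z ∈ S n →
    P' * x - y * z = k * P → k ∈ S n ∨ -k ∈ S n
  fac : ∀ n x, x ∈ S (n + 1) → x ≠ 0 → x ∈ S n ∨ (∃ y ∈ S n, ∃ z ∈ S n, x = y * z) ∨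
    (∃ u ∈ S n, ∃ P ∈ Pr n, x = u * P) ∨ IsUnit x
  res : ∀ n P, P ∈ Pr n → ∃ (κ : Type) (_ : Field κ) (ρ : A →+* κ),
    (∀ r, ∃ s ∈ S n, ρ s = r) ∧ (∀ a, ρ a = 0 ↔ P ∣ a) ∧ ∀ r : κ, ∃ K : Subfield κ, Finite K ∧ r ∈ K

/-- a multiplicative map to a `ℚ`-vector space which kills the units -/
structure Lg (A : Type) [CommRing A] (M : Type) [AddCommGroup M] [Module ℚ M] where
  c : A → M
  zero : c 0 = 0
  mul : ∀ a b, a ≠ 0 → b ≠ 0 → c (a * b) = c a + c b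
  unit : ∀ u, IsUnit u → c u = 0

section

variable {A : Type} [CommRing A] [IsDomain A] {M : Type} [AddCommGroup M] [Module ℚ M]

theorem Lg.neg (c : Lg A M) (a : A) : c.c (-a) = c.c a := by
  by_cases ha : a = 0
  · rw [ha, neg_zero]
  · rw [← neg_one_mul, c.mul _ _ (neg_ne_zero.2 one_ne_zero) ha, c.unit (-1) isUnit_one.neg,
      zero_add]

theorem Lg.one (c : Lg A M) : c.c 1 = 0 := c.unit 1 isUnit_one

variable (L : Lev A) (c : Lg A M)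

/-- the span of the small elements -/
def Lev.W (n : ℕ) : Submodule ℚ M := Submodule.span ℚ (c.c '' L.S n)

theorem Lev.S_mono {m n : ℕ} (h : m ≤ n) : L.S m ⊆ L.S n := by
  induction h with
  | refl => exact subset_rfl
  | step _ ih => exact ih.trans (L.mono _)

theorem Lev.W_of {n : ℕ} {x : A} (h : x ∈ L.S n ∨ -x ∈ L.S n) : c.c x ∈ L.W c n := by
  rcases h with h | h
  · exact Submodule.subset_span ⟨x, h, rfl⟩
  · rw [← c.neg x]
    exact Submodule.subset_span ⟨_, h, rfl⟩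

theorem Lev.W_mul {n : ℕ} {x y : A} (hx : c.c x ∈ L.W c n) (hy : c.c y ∈ L.W c n) :
    c.c (x * y) ∈ L.W c n := by
  by_cases h1 : x = 0
  · rw [h1, zero_mul, c.zero]
    exact Submodule.zero_mem _
  by_cases h2 : y = 0
  · rw [h2, mul_zero, c.zero]
    exact Submodule.zero_mem _
  rw [c.mul _ _ h1 h2]
  exact Submodule.add_mem _ hx hy

/-- the residue field data at a prime of level `n`, with a section -/
structure Lev.Res (L : Lev A) (n : ℕ) (P : A) where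
  κ : Type
  [fld : Field κ]
  ρ : A →+* κ
  s : κ → A
  s_mem : ∀ r, s r ∈ L.S n
  ρ_s : ∀ r, ρ (s r) = r
  s_ρ : ∀ x ∈ L.S n, s (ρ x) = x
  ker : ∀ a, ρ a = 0 ↔ P ∣ a
  fin : ∀ r : κ, ∃ K : Subfield κ, Finite K ∧ r ∈ K

attribute [instance] Lev.Res.fld

theorem Lev.exists_res (n : ℕ) (P : A) (hP : P ∈ L.Pr n) : Nonempty (L.Res n P) := by
  obtain ⟨κ, hκ, ρ, h1, h2, h3⟩ := L.res n P hP
  choose s hs hρ using h1
  refine ⟨⟨κ, ρ, s, hs, hρ, fun x hx => ?_, h2, h3⟩⟩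
  have h4 : ρ (s (ρ x) - x) = 0 := by rw [map_sub, hρ, sub_self]
  have h5 := (h2 _).1 h4
  rcases L.sub n _ _ (hs (ρ x)) hx with h6 | h6
  · exact sub_eq_zero.1 (L.inj n P _ hP h6 h5)
  · exact sub_eq_zero.1 (neg_eq_zero.1 (L.inj n P _ hP h6 ((dvd_neg).2 h5)))

section res

variable {L} {n : ℕ} {P : A} (D : L.Res n P) (hP : P ∈ L.Pr n)

theorem Lev.Res.tors (h : D.κˣ) : ∃ N : ℕ, 0 < N ∧ h ^ N = 1 := by
  obtain ⟨K, hK, hr⟩ := D.fin h
  have h0 : (⟨(h : D.κ), hr⟩ : K) ≠ 0 := fun e => h.ne_zero (congrArg Subtype.val e)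
  obtain ⟨N, hN, h1⟩ := isOfFinOrder_iff_pow_eq_one.1
    (isOfFinOrder_of_finite (Units.mk0 (⟨(h : D.κ), hr⟩ : K) h0))
  refine ⟨N, hN, ?_⟩
  ext
  have h2 := congrArg (fun u : Kˣ => ((u : K) : D.κ)) h1
  simpa using h2

include hP in
theorem Lev.Res.s_ne {r : D.κ} (hr : r ≠ 0) : D.s r ≠ 0 := by
  intro h
  have := D.ρ_s r
  rw [h, map_zero] at this
  exact hr this.symm

include hP in
theorem Lev.Res.s_one : D.s 1 = 1 := by
  have := D.s_ρ 1 (L.one n P hP)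
  rwa [map_one] at this

include hP in
theorem Lev.Res.ρ_ne {x : A} (hx : x ∈ L.S n) (h0 : x ≠ 0) : D.ρ x ≠ 0 :=
  fun h => h0 (L.inj n P x hP hx ((D.ker x).1 h))

include hP in
theorem Lev.Res.ρ_inj {x y : A} (hx : x ∈ L.S n) (hy : y ∈ L.S n) (h : D.ρ x = D.ρ y) :
    x = y := by
  rw [← D.s_ρ x hx, ← D.s_ρ y hy, h]

include hP in
theorem Lev.Res.ndvd {x : A} (hx : x ∈ L.S n) (h0 : x ≠ 0) : ¬ P ∣ x :=
  fun h => h0 (L.inj n P x hP hx h)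

end res

end

end Pool.Agent.V8H63.W3
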