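import Pool.Agent.V8H63.W3.Tate

set_option autoImplicit false
set_option linter.unusedSectionVars false

/-!
# Reduction modulo a prime and the five-term relation
-/

namespace Pool.Agent.V8H63.W3

variable {A : Type} [CommRing A] [IsDomain A] {M : Type} [AddCommGroup M] [Module ℚ M]
  (L : Lev A) (c : Lg A M) (ω : M →ₗ[ℚ] M →ₗ[ℚ] ℚ) (t : M →ₗ[ℚ] ℚ)

/-- the value of `ω` on the relation `(a - b) + b = a` -/
def tau (a b : A) : ℚ := tt ω (c.c b) (c.c (a - b)) (c.c a)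

theorem tau_smul (hω : ∀ x, ω x x = 0) (l a b : A) (hl : l ≠ 0) (ha : a ≠ 0) (hb : b ≠ 0)
    (hab : a - b ≠ 0) : tau c ω (l * a) (l * b) = tau c ω a b := by
  unfold tau
  rw [← mul_sub, c.mul _ _ hl ha, c.mul _ _ hl hb, c.mul _ _ hl hab, add_comm (c.c l),
    add_comm (c.c l), add_comm (c.c l), tt_shift ω hω]

theorem tau_neg (a b : A) : tau c ω (-a) (-b) = tau c ω a b := by
  unfold tau
  rw [c.neg, c.neg, neg_sub_neg, ← neg_sub a b, c.neg]

theorem tau_swap (hω : ∀ x, ω x x = 0) (a b : A) : tau c ω b a = - tau c ω a b := by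
  unfold tau
  rw [← neg_sub a b, c.neg, tt_rev ω hω]

/-- the relations which involve the prime `P` exactly once -/
def HB (n : ℕ) (P : A) : Prop :=
  ∀ a b k : A, a ≠ 0 → b ≠ 0 → k ≠ 0 → c.c a ∈ L.W c n → c.c b ∈ L.W c n → c.c k ∈ L.W c n →
    ¬ P ∣ a → a + k * P = b → tt ω (c.c a) (c.c k) (c.c b) = t (c.c a) - t (c.c b)

section

variable {n : ℕ} {P : A} (hP : P ∈ L.Pr n) (hω : ∀ x, ω x x = 0) (H : HB L c ω t n P)

include hP hω H

theorem B1 (a a' b k : A) (ha : a ≠ 0) (ha' : a' ≠ 0) (hb : b ≠ 0) (hab : a - b ≠ 0)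
    (hab' : a' - b ≠ 0) (h1 : c.c a ∈ L.W c n) (h1' : c.c a' ∈ L.W c n) (h2 : c.c b ∈ L.W c n)
    (h3 : c.c (a - b) ∈ L.W c n) (h3' : c.c (a' - b) ∈ L.W c n) (hk : c.c k ∈ L.W c n)
    (hPa : ¬ P ∣ a) (hPab : ¬ P ∣ (a - b)) (e : a + k * P = a') :
    tau c ω a b = tau c ω a' b := by
  by_cases hk0 : k = 0
  · rw [← e, hk0, zero_mul, add_zero]
  have hPr := L.prime n P hP
  have hPa' : ¬ P ∣ a' := by
    intro h
    apply hPa
    have : a = a' - k * P := by rw [← e]; ring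
    rw [this]
    exact dvd_sub h (dvd_mul_left P k)
  have H1 := H a a' k ha ha' hk0 h1 h1' hk hPa e
  have H2 := H (a - b) (a' - b) k hab hab' hk0 h3 h3' hk hPab (by rw [← e]; ring)
  have H3 := H (a' * (a - b)) (a * (a' - b)) (b * k) (mul_ne_zero ha' hab)
    (mul_ne_zero ha hab') (mul_ne_zero hb hk0) (L.W_mul c h1' h3) (L.W_mul c h1 h3')
    (L.W_mul c h2 hk) (fun h => (hPr.dvd_or_dvd h).elim hPa' hPab) (by rw [← e]; ring)
  rw [c.mul _ _ ha' hab, c.mul _ _ ha hab', c.mul _ _ hb hk0] at H3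
  have H4 := tt_five ω hω (c.c b) (c.c (a - b)) (c.c a) (c.c k) (c.c (a' - b)) (c.c a')
  have H5 : tt ω (c.c b + c.c k) (c.c a' + c.c (a - b)) (c.c a + c.c (a' - b)) =
      - tt ω (c.c a' + c.c (a - b)) (c.c b + c.c k) (c.c a + c.c (a' - b)) := by
    have e1 : ∀ x y z : M, tt ω x y z = - tt ω y x z := by
      intro x y z
      unfold tt
      rw [alt_swap ω hω x y, alt_swap ω hω y z, alt_swap ω hω z x]
      ring
    exact e1 _ _ _
  rw [H5, H3, H1, H2] at H4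
  simp only [map_add] at H4
  unfold tau
  linarith

variable (D : L.Res n P)

theorem B2 (x y z : A) (hx : x ∈ L.S n) (hy : y ∈ L.S n) (hz : z ∈ L.S n) (hx0 : x ≠ 0)
    (hy0 : y ≠ 0) (hz0 : z ≠ 0) (hxy : x ≠ y) (hd : P ∣ x * z - y) :
    tau c ω y x = tau c ω z 1 := by
  obtain ⟨k, hk⟩ := hd
  rw [mul_comm P k] at hk
  have hk' := L.quot n P x z y 1 k hP hx hz hy (L.one n P hP) (by rw [mul_one, hk])
  have hyx : y - x ≠ 0 := sub_ne_zero.2 (Ne.symm hxy)
  have hSub := L.sub n y x hy hx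
  have hndvd : ∀ w, (w ∈ L.S n ∨ -w ∈ L.S n) → w ≠ 0 → ¬ P ∣ w := by
    intro w hw hw0 h
    rcases hw with hw | hw
    · exact hw0 (L.inj n P w hP hw h)
    · exact hw0 (neg_eq_zero.1 (L.inj n P _ hP hw ((dvd_neg).2 h)))
  have hz1 : z - 1 ≠ 0 := by
    intro h
    have h' := sub_eq_zero.1 h
    rw [h', mul_one] at hk
    refine hndvd (y - x) hSub hyx ⟨-k, ?_⟩
    rw [← neg_sub x y, hk]
    ring
  have hz1W : c.c (z - 1) ∈ L.W c n := L.W_of c (L.sub n z 1 hz (L.one n P hP))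
  have e1 : tau c ω y x = tau c ω (x * z) x := by
    refine B1 L c ω t hP hω H y (x * z) x k hy0 (mul_ne_zero hx0 hz0) hx0 hyx ?_
      (L.W_of c (Or.inl hy)) (L.W_mul c (L.W_of c (Or.inl hx)) (L.W_of c (Or.inl hz)))
      (L.W_of c (Or.inl hx)) (L.W_of c hSub) ?_ (L.W_of c hk') (hndvd y (Or.inl hy) hy0)
      (hndvd _ hSub hyx) (by rw [← hk]; ring)
    · have : x * z - x = x * (z - 1) := by ring
      rw [this]
      exact mul_ne_zero hx0 hz1
    · have : x * z - x = x * (z - 1) := by ring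
      rw [this]
      exact L.W_mul c (L.W_of c (Or.inl hx)) hz1W
  rw [e1]
  have := tau_smul c ω hω x z 1 hx0 hz0 one_ne_zero hz1
  rwa [mul_one] at this

open Classical in
/-- the function on the residue field -/
noncomputable def gB (D : L.Res n P) (r : D.κ) : ℚ :=
  if r = 0 ∨ r = 1 then 0 else tau c ω (D.s r) 1

omit hP hω H in
theorem gB_eq {r : D.κ} (h0 : r ≠ 0) (h1 : r ≠ 1) : gB L c ω D r = tau c ω (D.s r) 1 := by
  unfold gB
  rw [if_neg]
  push Not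
  exact ⟨h0, h1⟩

theorem B3 (x y : A) (hx : x ∈ L.S n) (hy : y ∈ L.S n) (hx0 : x ≠ 0) (hy0 : y ≠ 0)
    (hxy : x ≠ y) : tau c ω y x = gB L c ω D (D.ρ y / D.ρ x) := by
  have hρx := D.ρ_ne hP hx hx0
  have hρy := D.ρ_ne hP hy hy0
  have h1 : D.ρ y / D.ρ x ≠ 1 := by
    intro h
    rw [div_eq_one_iff_eq hρx] at h
    exact hxy (D.ρ_inj hP hx hy h.symm)
  have h0 : D.ρ y / D.ρ x ≠ 0 := div_ne_zero hρy hρx
  rw [gB_eq L c ω D h0 h1]
  refine B2 L c ω t hP hω H x y _ hx hy (D.s_mem _) hx0 hy0 (D.s_ne hP h0) hxy ?_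
  rw [← D.ker, map_sub, map_mul, D.ρ_s]
  field_simp
  ring

/-- the values of `tau` on numerators which are products of two small elements -/
theorem C1 (a b x y : A) (hx : x ∈ L.S n) (hy : y ∈ L.S n) (hb : b ∈ L.S n) (hx0 : x ≠ 0)
    (hy0 : y ≠ 0) (hb0 : b ≠ 0) (ha : a = x * y ∨ a = -(x * y)) (hab : c.c (a - b) ∈ L.W c n)
    (hPab : ¬ P ∣ (a - b)) : tau c ω a b = gB L c ω D (D.ρ a / D.ρ b) := by
  have hndvd : ∀ w, (w ∈ L.S n ∨ -w ∈ L.S n) → w ≠ 0 → ¬ P ∣ w := by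
    intro w hw hw0 h
    rcases hw with hw | hw
    · exact hw0 (L.inj n P w hP hw h)
    · exact hw0 (neg_eq_zero.1 (L.inj n P _ hP hw ((dvd_neg).2 h)))
  have hPr := L.prime n P hP
  have hxy0 : x * y ≠ 0 := mul_ne_zero hx0 hy0
  have ha0 : a ≠ 0 := by
    rcases ha with h | h
    · rw [h]; exact hxy0
    · rw [h]; exact neg_ne_zero.2 hxy0
  have hxyd : ¬ P ∣ x * y := fun h => (hPr.dvd_or_dvd h).elim (hndvd x (Or.inl hx) hx0)
    (hndvd y (Or.inl hy) hy0)
  have hPa : ¬ P ∣ a := by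
    rcases ha with h | h
    · rw [h]; exact hxyd
    · rw [h]; exact fun h => hxyd ((dvd_neg).1 h)
  have haW : c.c a ∈ L.W c n := by
    rcases ha with h | h
    · rw [h]; exact L.W_mul c (L.W_of c (Or.inl hx)) (L.W_of c (Or.inl hy))
    · rw [h, c.neg]; exact L.W_mul c (L.W_of c (Or.inl hx)) (L.W_of c (Or.inl hy))
  have hρa : D.ρ a ≠ 0 := fun h => hPa ((D.ker a).1 h)
  set a' : A := D.s (D.ρ a) with ha'
  have ha'S : a' ∈ L.S n := D.s_mem _
  have ha'0 : a' ≠ 0 := D.s_ne hP hρa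
  have hd : P ∣ a' - a := by rw [← D.ker, map_sub, D.ρ_s, sub_self]
  obtain ⟨k, hk⟩ := hd
  rw [mul_comm P k] at hk
  have hkS : k ∈ L.S n ∨ -k ∈ L.S n := by
    rcases ha with h | h
    · have := L.quot n P x y a' 1 (-k) hP hx hy ha'S (L.one n P hP) (by
        rw [mul_one, neg_mul, ← hk, h]; ring)
      rw [neg_neg] at this
      exact this.symm
    · exact L.quot' n P x y a' k hP hx hy ha'S (by rw [← hk, h]; ring)
  have hab'ne : a' ≠ b := by
    intro h
    apply hPab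
    rw [← D.ker, map_sub]
    have : D.ρ a' = D.ρ a := D.ρ_s _
    rw [← this, h, sub_self]
  have hab0 : a - b ≠ 0 := by
    intro h
    apply hPab
    rw [h]
    exact dvd_zero P
  have e1 : tau c ω a b = tau c ω a' b :=
    B1 L c ω t hP hω H a a' b k ha0 ha'0 hb0 hab0 (sub_ne_zero.2 hab'ne) haW
      (L.W_of c (Or.inl ha'S)) (L.W_of c (Or.inl hb)) hab
      (L.W_of c (L.sub n a' b ha'S hb)) (L.W_of c hkS) hPa hPab (by rw [← hk]; ring)
  rw [e1, B3 L c ω t hP hω H D b a' hb ha'S hb0 ha'0 (Ne.symm hab'ne), D.ρ_s]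

theorem gB_zero (r : D.κ) : gB L c ω D r = 0 := by
  have hndvd : ∀ w, (w ∈ L.S n ∨ -w ∈ L.S n) → w ≠ 0 → ¬ P ∣ w := by
    intro w hw hw0 h
    rcases hw with hw | hw
    · exact hw0 (L.inj n P w hP hw h)
    · exact hw0 (neg_eq_zero.1 (L.inj n P _ hP hw ((dvd_neg).2 h)))
  have hPr := L.prime n P hP
  have h1S := L.one n P hP
  have g0 : gB L c ω D 0 = 0 := by unfold gB; rw [if_pos (Or.inl rfl)]
  have g1 : gB L c ω D 1 = 0 := by unfold gB; rw [if_pos (Or.inr rfl)]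
  have hs0 : ∀ {r : D.κ}, r ≠ 0 → D.s r ≠ 0 := fun h => D.s_ne hP h
  have hs1 : ∀ {r : D.κ}, r ≠ 1 → D.s r ≠ 1 := by
    intro r hr h
    apply hr
    rw [← D.ρ_s r, h, map_one]
  refine fiveTerm_zero D.fin (gB L c ω D) g0 g1 ?_ ?_ ?_ r
  · -- inversion
    intro r
    by_cases hr0 : r = 0
    · rw [hr0, inv_zero, g0, neg_zero]
    by_cases hr1 : r = 1
    · rw [hr1, inv_one, g1, neg_zero]
    have h1 := B3 L c ω t hP hω H D (D.s r) 1 (D.s_mem _) h1S (hs0 hr0) one_ne_zero (hs1 hr1)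
    rw [map_one, D.ρ_s, one_div] at h1
    rw [← h1, tau_swap c ω hω, gB_eq L c ω D hr0 hr1]
  · -- `1 - r`
    intro r
    by_cases hr0 : r = 0
    · rw [hr0, sub_zero, g1, g0, neg_zero]
    by_cases hr1 : r = 1
    · rw [hr1, sub_self, g1, g0, neg_zero]
    have hr0' : 1 - r ≠ 0 := sub_ne_zero.2 (Ne.symm hr1)
    have hr1' : 1 - r ≠ 1 := by
      intro h
      apply hr0
      have : r = 1 - (1 - r) := by ring
      rw [this, h, sub_self]
    set z := D.s r with hz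
    set z' := D.s (1 - r) with hz'
    have hzS : z ∈ L.S n := D.s_mem _
    have hz'S : z' ∈ L.S n := D.s_mem _
    have hzpred := L.pred n P z hP hzS (hs0 hr0)
    have hz'pred := L.pred n P z' hP hz'S (hs0 hr0')
    have hd : P ∣ (z' - 1) * 1 + z := by
      rw [← D.ker, mul_one, map_add, map_sub, map_one, D.ρ_s, D.ρ_s]
      ring
    obtain ⟨k, hk⟩ := hd
    rw [mul_comm P k] at hk
    have hkS := L.quot' n P (z' - 1) 1 z k hP hz'pred h1S hzS hk
    have hz1 : z - 1 ≠ 0 := sub_ne_zero.2 (hs1 hr1)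
    have hz'1 : z' - 1 ≠ 0 := sub_ne_zero.2 (hs1 hr1')
    have e1 : tau c ω (1 - z) 1 = tau c ω z' 1 := by
      refine B1 L c ω t hP hω H (1 - z) z' 1 k ?_ (hs0 hr0') one_ne_zero ?_ hz'1 ?_
        (L.W_of c (Or.inl hz'S)) (L.W_of c (Or.inl h1S)) ?_ (L.W_of c (Or.inl hz'pred))
        (L.W_of c hkS) ?_ ?_ (by rw [← hk]; ring)
      · rw [← neg_sub]; exact neg_ne_zero.2 hz1
      · rw [sub_sub_cancel_left]; exact neg_ne_zero.2 (hs0 hr0)
      · rw [← neg_sub, c.neg]; exact L.W_of c (Or.inl hzpred)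
      · rw [sub_sub_cancel_left, c.neg]; exact L.W_of c (Or.inl hzS)
      · rw [← neg_sub]
        exact fun h => hndvd (z - 1) (Or.inl hzpred) hz1 ((dvd_neg).1 h)
      · rw [sub_sub_cancel_left]
        exact fun h => hndvd z (Or.inl hzS) (hs0 hr0) ((dvd_neg).1 h)
    rw [gB_eq L c ω D hr0' hr1', gB_eq L c ω D hr0 hr1, ← hz, ← hz', ← e1]
    unfold tau tt
    rw [sub_sub_cancel_left, c.neg, ← neg_sub z 1, c.neg, c.one]
    simp only [map_zero, LinearMap.zero_apply]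
    rw [alt_swap ω hω (c.c z)]
    ring
  · -- the five-term relation
    intro r q hr0 hr1 hq0 hq1 hrq
    set x := D.s r with hx
    set y := D.s q with hy
    have hxS : x ∈ L.S n := D.s_mem _
    have hyS : y ∈ L.S n := D.s_mem _
    have hρx : D.ρ x = r := D.ρ_s r
    have hρy : D.ρ y = q := D.ρ_s q
    have hx0 := hs0 hr0
    have hy0 := hs0 hq0
    have hx1 : x - 1 ≠ 0 := sub_ne_zero.2 (hs1 hr1)
    have hy1 : y - 1 ≠ 0 := sub_ne_zero.2 (hs1 hq1)
    have hxpred := L.pred n P x hP hxS hx0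
    have hypred := L.pred n P y hP hyS hy0
    have hxy : x ≠ y := by
      intro h
      apply hrq
      rw [← hρx, h, hρy]
    have hyx : y - x ≠ 0 := sub_ne_zero.2 (Ne.symm hxy)
    have e1 : gB L c ω D r = tau c ω x 1 := gB_eq L c ω D hr0 hr1
    have e2 : gB L c ω D q = tau c ω y 1 := gB_eq L c ω D hq0 hq1
    have e3 : gB L c ω D (q / r) = tau c ω y x := by
      rw [B3 L c ω t hP hω H D x y hxS hyS hx0 hy0 hxy, hρx, hρy]
    have e4 : gB L c ω D ((q - 1) / (r - 1)) = tau c ω (y - 1) (x - 1) := by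
      rw [B3 L c ω t hP hω H D (x - 1) (y - 1) hxpred hypred hx1 hy1
        (fun h => hxy (sub_left_injective h)), map_sub, map_sub, map_one, hρx, hρy]
    have hsum : y * (x - 1) = x * (y - 1) - (y - x) := by ring
    have hWyx : c.c (x * (y - 1) - (y - x)) ∈ L.W c n := by
      rw [← hsum]
      exact L.W_mul c (L.W_of c (Or.inl hyS)) (L.W_of c (Or.inl hxpred))
    have hdyx : ¬ P ∣ (x * (y - 1) - (y - x)) := by
      rw [← hsum]
      exact fun h => (hPr.dvd_or_dvd h).elim (hndvd y (Or.inl hyS) hy0)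
        (hndvd (x - 1) (Or.inl hxpred) hx1)
    have e5 : gB L c ω D (r * (q - 1) / (q - r)) = tau c ω (x * (y - 1)) (y - x) := by
      rcases L.sub n y x hyS hxS with h | h
      · rw [C1 L c ω t hP hω H D (x * (y - 1)) (y - x) x (y - 1) hxS hypred h hx0 hy1 hyx
          (Or.inl rfl) hWyx hdyx, map_mul, map_sub, map_sub, map_one, hρx, hρy]
      · rw [← tau_neg c ω (x * (y - 1)) (y - x)]
        have h6 : -(x * (y - 1)) - -(y - x) = -(x * (y - 1) - (y - x)) := by ring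
        rw [C1 L c ω t hP hω H D (-(x * (y - 1))) (-(y - x)) x (y - 1) hxS hypred h hx0 hy1
          (neg_ne_zero.2 hyx) (Or.inr rfl) (by rw [h6, c.neg]; exact hWyx)
          (by rw [h6]; exact fun h => hdyx ((dvd_neg).1 h)), map_neg, map_neg, neg_div_neg_eq,
          map_mul, map_sub, map_sub, map_one, hρx, hρy]
    rw [e1, e2, e3, e4, e5]
    have H1 := tt_five ω hω (c.c 1) (c.c (x - 1)) (c.c x) (c.c (y - x)) (c.c (y - 1)) (c.c y)
    unfold tau
    rw [← hsum, c.mul _ _ hx0 hy1, c.mul _ _ hy0 hx1]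
    have h7 : y - 1 - (x - 1) = y - x := by ring
    rw [h7]
    rw [c.one] at H1 ⊢
    rw [zero_add] at H1
    exact H1

/-- the conclusion of part B -/
theorem partB : (∀ x ∈ L.S n, ∀ y ∈ L.S n, ω (c.c x) (c.c y) = 0) ∧
    ∀ x ∈ L.S n, t (c.c x) = 0 := by
  obtain ⟨D⟩ := L.exists_res n P hP
  have hPr := L.prime n P hP
  have hndvd : ∀ w, (w ∈ L.S n ∨ -w ∈ L.S n) → w ≠ 0 → ¬ P ∣ w := by
    intro w hw hw0 h
    rcases hw with hw | hw
    · exact hw0 (L.inj n P w hP hw h)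
    · exact hw0 (neg_eq_zero.1 (L.inj n P _ hP hw ((dvd_neg).2 h)))
  have h0 : ∀ x ∈ L.S n, ∀ y ∈ L.S n, ω (c.c x) (c.c y) = 0 := by
    refine tate L c ω hω n ?_ ?_
    · intro m hm P' hP' x hx y hy z hz hx0 hy0 hz0 k hk0 hk e
      have hmn : L.S m ⊆ L.S n := L.S_mono hm.le
      have hP'S : P' ∈ L.S n := L.S_mono (Nat.succ_le_of_lt hm) (L.mem m P' hP')
      have hP'0 := (L.prime m P' hP').ne_zero
      have hk' : k ∈ L.S n ∨ -k ∈ L.S n := hk.imp (fun h => hmn h) (fun h => hmn h)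
      have h1 := C1 L c ω t hP hω H D (x * y) z x y (hmn hx) (hmn hy) (hmn hz) hx0 hy0 hz0
        (Or.inl rfl) (by rw [e]; exact L.W_mul c (L.W_of c hk') (L.W_of c (Or.inl hP'S)))
        (by
          rw [e]
          exact fun h => (hPr.dvd_or_dvd h).elim (hndvd k hk' hk0) (hndvd P' (Or.inl hP'S) hP'0))
      rw [gB_zero L c ω t hP hω H D] at h1
      unfold tau at h1
      rw [e] at h1
      exact h1
    · intro m hm P' hP' P'' hP'' hne
      have hP'S : P' ∈ L.S n := L.S_mono (Nat.succ_le_of_lt hm) (L.mem m P' hP')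
      have hP''S : P'' ∈ L.S n := L.S_mono (Nat.succ_le_of_lt hm) (L.mem m P'' hP'')
      have h1 := B3 L c ω t hP hω H D P' P'' hP'S hP''S (L.prime m P' hP').ne_zero
        (L.prime m P'' hP'').ne_zero hne
      rw [gB_zero L c ω t hP hω H D] at h1
      exact h1
  refine ⟨h0, fun x hx => ?_⟩
  refine lin_zero L c hP t ?_ x hx
  intro x hx y hy z hz hx0 hy0 hz0 k hk0 hk e
  have h1 := H z (x * y) k hz0 (mul_ne_zero hx0 hy0) hk0 (L.W_of c (Or.inl hz))
    (L.W_mul c (L.W_of c (Or.inl hx)) (L.W_of c (Or.inl hy))) (L.W_of c hk)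
    (hndvd z (Or.inl hz) hz0) (by rw [← e]; ring)
  have hkz : ∀ w ∈ L.S n, ω (c.c k) (c.c w) = 0 := by
    intro w hw
    rcases hk with hk | hk
    · exact h0 _ hk _ hw
    · rw [← c.neg k]
      exact h0 _ hk _ hw
  unfold tt at h1
  rw [c.mul _ _ hx0 hy0] at h1
  simp only [map_add, LinearMap.add_apply] at h1
  rw [h0 x hx z hz, h0 y hy z hz, hkz x hx, hkz y hy, alt_swap ω hω (c.c z) (c.c k),
    hkz z hz] at h1
  linarith

end

end Pool.Agent.V8H63.W3
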