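import Pool.Agent.V8H63.W3.Lev

set_option autoImplicit false
set_option linter.unusedSectionVars false

/-!
# The argument of Tate for `K_2`
-/

namespace Pool.Agent.V8H63.W3

variable {A : Type} [CommRing A] [IsDomain A] {M : Type} [AddCommGroup M] [Module ℚ M]
  (L : Lev A) (c : Lg A M) (ω : M →ₗ[ℚ] M →ₗ[ℚ] ℚ)

/-- a linear form on small elements which factors through the residue field vanishes -/
theorem lin_zero {n : ℕ} {P : A} (hP : P ∈ L.Pr n) (φ : M →ₗ[ℚ] ℚ)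
    (h : ∀ x ∈ L.S n, ∀ y ∈ L.S n, ∀ z ∈ L.S n, x ≠ 0 → y ≠ 0 → z ≠ 0 →
      ∀ k, k ≠ 0 → (k ∈ L.S n ∨ -k ∈ L.S n) → x * y - z = k * P →
      φ (c.c x) + φ (c.c y) = φ (c.c z)) (x : A) (hx : x ∈ L.S n) : φ (c.c x) = 0 := by
  by_cases hx0 : x = 0
  · rw [hx0, c.zero, map_zero]
  obtain ⟨D⟩ := L.exists_res n P hP
  have h1 : ∀ r : D.κˣ, φ (c.c (D.s r)) = 0 := by
    refine hom_zero D.tors (fun r : D.κˣ => φ (c.c (D.s r))) ?_
    intro a b
    have ha := D.s_ne hP a.ne_zero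
    have hb := D.s_ne hP b.ne_zero
    have hab := D.s_ne hP (a * b).ne_zero
    have hd : P ∣ D.s a * D.s b - D.s ((a * b : D.κˣ) : D.κ) := by
      rw [← D.ker, map_sub, map_mul, D.ρ_s, D.ρ_s, D.ρ_s, Units.val_mul, sub_self]
    obtain ⟨k, hk⟩ := hd
    by_cases hk0 : k = 0
    · rw [hk0, mul_zero, sub_eq_zero] at hk
      have : φ (c.c (D.s ((a * b : D.κˣ) : D.κ))) = φ (c.c (D.s a)) + φ (c.c (D.s b)) := by
        rw [← hk, c.mul _ _ ha hb, map_add]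
      exact this
    · rw [mul_comm P k] at hk
      have hk' := L.quot n P (D.s a) (D.s b) (D.s ((a * b : D.κˣ) : D.κ)) 1 k hP (D.s_mem _)
        (D.s_mem _) (D.s_mem _) (L.one n P hP) (by rw [mul_one, hk])
      exact (h _ (D.s_mem _) _ (D.s_mem _) _ (D.s_mem _) ha hb hab k hk0 hk' hk).symm
  have h2 := h1 (Units.mk0 (D.ρ x) (D.ρ_ne hP hx hx0))
  rwa [Units.val_mk0, D.s_ρ x hx] at h2

/-- one step of the argument: the pairing of a prime with smaller elements -/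
theorem tate_step (hω : ∀ x, ω x x = 0) {n : ℕ} {P : A} (hP : P ∈ L.Pr n)
    (h0 : ∀ x ∈ L.S n, ∀ y ∈ L.S n, ω (c.c x) (c.c y) = 0)
    (h1 : ∀ x ∈ L.S n, ∀ y ∈ L.S n, ∀ z ∈ L.S n, x ≠ 0 → y ≠ 0 → z ≠ 0 → ∀ k, k ≠ 0 →
      (k ∈ L.S n ∨ -k ∈ L.S n) → x * y - z = k * P →
      tt ω (c.c z) (c.c (k * P)) (c.c (x * y)) = 0) (x : A) (hx : x ∈ L.S n) :
    ω (c.c P) (c.c x) = 0 := by
  have hP0 : P ≠ 0 := (L.prime n P hP).ne_zero
  refine lin_zero L c hP (ω (c.c P)) ?_ x hx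
  intro x hx y hy z hz hx0 hy0 hz0 k hk0 hk hkP
  have h2 := h1 x hx y hy z hz hx0 hy0 hz0 k hk0 hk hkP
  rw [c.mul _ _ hk0 hP0, c.mul _ _ hx0 hy0] at h2
  unfold tt at h2
  simp only [map_add, LinearMap.add_apply] at h2
  have hkz : ∀ w ∈ L.S n, ω (c.c k) (c.c w) = 0 := by
    intro w hw
    rcases hk with hk | hk
    · exact h0 _ hk _ hw
    · rw [← c.neg k]
      exact h0 _ hk _ hw
  rw [h0 x hx z hz, h0 y hy z hz, hkz x hx, hkz y hy, alt_swap ω hω (c.c z) (c.c k), hkz z hz,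
    alt_swap ω hω (c.c z) (c.c P)] at h2
  linarith

/-- the span of the next level -/
theorem W_succ (n : ℕ) (p : M → Prop) (h0 : p 0) (hadd : ∀ x y, p x → p y → p (x + y))
    (hS : ∀ x ∈ L.S n, p (c.c x)) (hP : ∀ P ∈ L.Pr n, p (c.c P)) (x : A) (hx : x ∈ L.S (n + 1)) :
    p (c.c x) := by
  by_cases hx0 : x = 0
  · rw [hx0, c.zero]
    exact h0
  rcases L.fac n x hx hx0 with h | ⟨y, hy, z, hz, rfl⟩ | ⟨u, hu, P, hP', rfl⟩ | h
  · exact hS x h
  · rw [c.mul _ _ (left_ne_zero_of_mul hx0) (right_ne_zero_of_mul hx0)]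
    exact hadd _ _ (hS y hy) (hS z hz)
  · rw [c.mul _ _ (left_ne_zero_of_mul hx0) (right_ne_zero_of_mul hx0)]
    exact hadd _ _ (hS u hu) (hP P hP')
  · rw [c.unit x h]
    exact h0

/-- an alternating form which kills the relations vanishes -/
theorem tate (hω : ∀ x, ω x x = 0) (n : ℕ)
    (h1 : ∀ m < n, ∀ P ∈ L.Pr m, ∀ x ∈ L.S m, ∀ y ∈ L.S m, ∀ z ∈ L.S m, x ≠ 0 → y ≠ 0 → z ≠ 0 →
      ∀ k, k ≠ 0 → (k ∈ L.S m ∨ -k ∈ L.S m) → x * y - z = k * P →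
      tt ω (c.c z) (c.c (k * P)) (c.c (x * y)) = 0)
    (h2 : ∀ m < n, ∀ P ∈ L.Pr m, ∀ P' ∈ L.Pr m, P ≠ P' →
      tt ω (c.c P) (c.c (P' - P)) (c.c P') = 0) :
    ∀ x ∈ L.S n, ∀ y ∈ L.S n, ω (c.c x) (c.c y) = 0 := by
  induction n with
  | zero =>
    intro x hx y _
    rw [L.base x hx, c.zero, map_zero, LinearMap.zero_apply]
  | succ n ih =>
    have h0 := ih (fun m hm => h1 m (hm.trans (Nat.lt_succ_self n)))
      (fun m hm => h2 m (hm.trans (Nat.lt_succ_self n)))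
    have hPx : ∀ P ∈ L.Pr n, ∀ x ∈ L.S n, ω (c.c P) (c.c x) = 0 := fun P hP x hx =>
      tate_step L c ω hω hP h0 (h1 n (Nat.lt_succ_self n) P hP) x hx
    have hPP : ∀ P ∈ L.Pr n, ∀ P' ∈ L.Pr n, ω (c.c P) (c.c P') = 0 := by
      intro P hP P' hP'
      by_cases h : P = P'
      · rw [h, hω]
      have h3 := h2 n (Nat.lt_succ_self n) P hP P' hP' h
      unfold tt at h3
      have h4 : ∀ Q ∈ L.Pr n, ω (c.c Q) (c.c (P' - P)) = 0 := by
        intro Q hQ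
        rcases L.diff n P P' hP hP' with h5 | h5
        · exact hPx Q hQ _ h5
        · rw [← c.neg (P' - P)]
          exact hPx Q hQ _ h5
      rw [h4 P hP, alt_swap ω hω (c.c (P' - P)) (c.c P'), h4 P' hP',
        alt_swap ω hω (c.c P') (c.c P)] at h3
      linarith
    have hSx : ∀ x ∈ L.S n, ∀ y ∈ L.S (n + 1), ω (c.c x) (c.c y) = 0 := by
      intro x hx
      refine W_succ L c n (fun y => ω (c.c x) y = 0) (map_zero _) (fun a b ha hb => ?_)
        (fun y hy => h0 x hx y hy) (fun P hP => ?_)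
      · rw [map_add, ha, hb, add_zero]
      · rw [alt_swap ω hω, hPx P hP x hx, neg_zero]
    have hPy : ∀ P ∈ L.Pr n, ∀ y ∈ L.S (n + 1), ω (c.c P) (c.c y) = 0 := by
      intro P hP
      refine W_succ L c n (fun y => ω (c.c P) y = 0) (map_zero _) (fun a b ha hb => ?_)
        (fun y hy => hPx P hP y hy) (fun P' hP' => hPP P hP P' hP')
      rw [map_add, ha, hb, add_zero]
    intro x hx y hy
    refine W_succ L c n (fun x => ω x (c.c y) = 0) (by simp) (fun a b ha hb => ?_)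
      (fun x hx => hSx x hx y hy) (fun P hP => hPy P hP y hy) x hx
    rw [map_add, LinearMap.add_apply, ha, hb, add_zero]

end Pool.Agent.V8H63.W3
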